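import Pool.Agent.H885.AbsN
import Pool.Agent.H885.SymW
import Pool.Agent.H885.BaseN
import Pool.Agent.H885.UnifG
import Pool.Agent.H885.Cnt
import Pool.Agent.H885.Mono
import Pool.Graph.R_seed8.H340R2.LW

/-!
# The period conjecture near degenerate fibres in bounded degree: the sum of the defects

For `j = 1, …, N` let `X_j → B_j` be a family of varieties over `ℚ` over the complement of a divisor with normal crossings in
a neighbourhood of `0` in the affine space of **any dimension `m`**, with unipotent local monodromies: the central fibre over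
`0` may be **degenerate**. In rational bases of the canonical extension the period matrix of the motive `M_j` of rank `n` of the
fibre over `x` is `P_j(x) = Ω_j x_1^(R_{j1}) ⋯ x_m^(R_{jm}) Z_j(x)`; the `R_{ji}` are the residues, commuting nilpotent matrices
(they can be made integral), `Z_j` is a matrix of G-functions over `ℚ` in the `m` variables, and `Ω_j` is the period matrix of the
limit mixed Hodge structure. In the direction `a_j ∈ ℤ^m` one has `P_j(a_j u) = C_j u^(R_j) Z_j(a_j u)`, where
`R_j = ∑_i R_{ji}` and `C_j = Ω_j ∏_i a_{ji}^(R_{ji})` is the period matrix of the limit mixed Hodge structure at the tangential base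
point `a_j`. At the rational points `x_j = a_j / b_j`, `b_j ∈ ℕ`, the period matrix is
`P_j(x_j) = C_j exp (-log(b_j) R_j) Z_j(a_j / b_j)`. The conjecture says that the transcendence degree of the periods of
`M = M_1 + … + M_N` is at least the dimension of the motivic Galois group. The **defect** of `M` is the difference.

We assume that the family is as general as its known algebraic relations permit. More exactly (`Fibres.Valid`): the group
is `T G`, where `G` is the connected Zariski closure of the monodromy, with the Lie algebra `𝔤`, and `T` is a torus of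
dimension `t` which multiplies `M_j` by the character `τ ↦ ∏ τ_i ^ v_(i j)`; the periods of `T` are `t` algebraically independent
numbers `θ_1, …, θ_t`, and there is a set `ℱ` of relations `f(P)² = ∏ θ_i ^ d_i q`, `q` algebraic, where `f` is a polynomial with
algebraic coefficients which is homogeneous of weight `d_i` for the `i`-th character, such that all directions tangent to
these relations are in the Lie algebra of `G`. The most important case is `t = 1`, `θ = 2 π i` (`pi_independent`: Lindemann),
`v_j` the weight of `M_j`, and `ℱ` consists of the relations of Riemann and Legendre `P_jᵀ J_j P_j = (2 π i) ^ v_j Q_j`; then the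
condition on `ℱ` says that `𝔤` contains the product of the Lie algebras of the symplectic or orthogonal groups of the forms
`J_j` (`known_polarized`, `tangent_polarized`), that is, **big monodromy**, as for the families of hypersurfaces, complete
intersections, curves, abelian varieties. If the motivic group is `T G` for another group `G` one can take for `ℱ` the relations
given by motivated cycles. More generally we consider the transcendence degree over any field `K = ℚ(η_1, …, η_u)` the generators
of which are algebraic over the field of the limit periods: for `u = 0` this is the conjecture, and for `K` = the field of the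
limit periods and `t = 0` it is the relative version, and there is no condition on `ℱ` then (no relations are used, so all
families and all groups `G` are admitted, also families of mixed motives).

**The group.** `𝔤` is a space of tuples `X = (X_1, …, X_N)` of matrices, stable under the conjugation by `exp (λ R_j)`
(`Fibres.conjugate`), such that for each denominator `c` the tuple of the `X_j` with `b_j = c` is an infinitesimal symmetry of the
restrictions of the `Z_j` to the lines `ℚ a_j`; no condition is needed for points with different denominators. Let `Y = x^R Z` be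
the restriction of `⨁ Y_j` to the lines (for `j` with a given `b_j`). If the monodromy group of `Y` is connected and perfect (for
geometric pure families it is semisimple: Deligne), then its Lie algebra is such a space: `log x` is transcendental over the
field generated by `Y` over `ℂ(x)`, so a relation for `Z` gives relations for all `exp (-λ R) Y`. (These remarks are not part of
the Lean theorem.)

**Theorem.** Fix `m, n, N, M, q, s, ℓ, t, u, e, δ`. There is `E` with the following property for all complex numbers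
`β_1, …, β_s`, all `H, h, w` and all `b₀ ≥ (2 H (h + w + 2))^E`. We consider

* **all** tuples `b_1, …, b_N` of denominators in the window `[b₀, b₀ + w]`, at most `M` of them different, such that the
  distances of different `b_j` are larger than `2^(m+1) H (h + 2)`,
* **all** families, that is, all commuting nilpotent integral `R_{ji}` and all `n × n` systems
  `T (x_i ∂Z_j / ∂x_i + R_{ji} Z_j) = Z_j A_{ji}` of degree at most `q`, for which the height of the system and the growth
  constants of the coefficients and of the denominators of `Z_j` and `Z_j⁻¹` are at most `H`,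
* **all** numerators `a_j ∈ ℤ^m` with `|a_j| ≤ h`, such that the line `ℚ a_j` is not contained in the polar locus `T = 0`,
* **all** numbers `γ_1, …, γ_ℓ`, **all** limits with periods (entries of the `C_j`) algebraic of degree at most `e` over
  `ℚ(β_1, …, β_s, γ_1, …, γ_ℓ)`, such that the period matrices `P_j(x_j)` are invertible, and all `K` as above, with generators
  `η_i` algebraic of degree at most `e` over `ℚ(β_1, …, β_s, γ_1, …, γ_ℓ)`,
* all `θ`, `v`, `ℱ`, `𝔤` as above, over `K` (without any bound for the degrees and coefficients).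

The defect is at most `ρ`, in degree `δ`, if `dim 𝔤 + t - ρ` of the entries of the period matrices `P_j(x_j)` satisfy no
nonzero polynomial relation of degree at most `δ` the coefficients of which are algebraic of degree at most `e` over `K`
(for `K = ℚ`: algebraic numbers of degree at most `e`, of arbitrary height). Then:

1. **The sum of the defects is at most `s + 1`:** for any number of motives (tuples of fibres) as above, of any families, the
   denominators of which are at distance larger than `2^(m+1) H (h + 2)` for different tuples, there are `ρ_1, ρ_2, …` with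
   `∑ ρ_l ≤ s + 1` such that the defect of the motive with number `l` is at most `ρ_l + ℓ`.
2. **Few exceptional denominators:** for each `r ≥ ℓ` there is a set `𝓔` of at most `M ⌊(s + 1) / (r + 1 - ℓ)⌋` denominators such
   that **all** motives as above the denominators of which are at distance larger than `2^(m+1) H (h + 2)` from the
   elements of `𝓔` have a defect of at most `r`. The set `𝓔` depends on `β_1, …, β_s` and on the window only, not on the
   families, the limits, the points, the number fields or `𝔤`.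
3. **Without windows:** there is `k`, which depends only on `m, n, N, q, s, ℓ, t, u, e, δ`, such that for all `β_1, …, β_s`, `H` and
   `h` the number of the integers `b ≤ B` which are the denominators of some motive as above, of any families, with all
   `b_j = b`, and with a defect larger than `ℓ`, is `O(B^(1 - 1/k))`.

For `K = ℚ`, `r = ℓ = 0` and `s = trdeg ℚ(C_1, …, C_N)` this is the period conjecture in bounded degree, `trdeg ≥ dim T G`, for
all these motives, except for at most `M (s + 1)` denominators in each window (and their neighbours). Example: the curves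
`y² = f(x) (x - t)`, `f` of degree `2 g`, degenerate for `t → ∞` (with unipotent monodromy after the twist by `√(-t)`); or the
hypergeometric families of Calabi-Yau varieties at the point of maximal degeneration, where the limit periods are algebraic
over `ℚ(2 π i, ζ(3), …)`: if they are algebraic over `ℚ(2 π i)` (for instance elliptic curves and K3 surfaces) then `s = 1`, and
the sum of **all** defects of all separated motives in a window is at most `2`.

What is known. For **one fixed one-parameter** family the library has the transcendence degree relative to the periods of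
the limit (`AllTuplesDegenerating`, MP_cbf1af_ag); for almost all algebraic points of a fixed family there is
`MonodromyDimension` (MP_57341d_ag), with bounded height of the relations. Near central fibres which are **not** degenerate our
`DefectsOverNumberFields` (MP_57341d_ag) is the analogous theorem, with `s` instead of `s + 1`, without part 3; our
`DegreeBoundedNearDegenerate` (MP_5591bc_ag) says that all tuples but `s + 1` are generic, but says nothing about the
transcendence degree of a tuple that is not generic, for `ℓ > 0`, or over fields `K`. New are here the bound for the sum of the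
defects near degenerate fibres and the number of defects larger than `r`, for all families at once.

Bounded degree is essential for the method: nothing is said about relations of degree larger than `δ`. That the
period matrices of families have the form `Ω x^R Z(x)` with `Z` as above, and the interpretation of `dim 𝔤 + t` as the dimension
of the motivic Galois group, are from the literature and not part of the Lean theorem.

Proof (`Pool/Agent/H885`). (i) A linear independence theorem for values of G-functions at `1 / t` in which all constants are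
explicit powers of the height of the system; Galochkin's condition for `x^R Z` with the same kind of constants (`GN`). (ii)
Twisted shifts (`EPm`, `TwS`, `CurTw`): for a common `t₀ > b_j`, `g_j = t₀ - b_j`, the functions
`exp (-log(1 - g_j x) R_j) Z_j(x / (1 - g_j x))` are again G-functions of this kind, and their values at `x = 1 / t₀` are
`z_j = exp (-log(b_j / t₀) R_j) Z_j(1 / b_j)`, so that **only one further number** `log t₀` is needed for all points of the
window: `P_j = C_j exp (-log(t₀) R_j) z_j`. (iii) An ultraproduct of a sequence of counterexamples has, for each of the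
separated tuples and each symmetry, a derivation of `*ℂ` over `*ℚ` which moves the `z_j` at this tuple by the symmetry and kills
those at all other tuples (`derW`). (iv) By linear algebra (`pigeonS`) the derivations which kill the `β_i`, `log t₀` and the
`γ_i` move the periods of the tuple `l` in a space of dimension at least `dim 𝔤 - ρ_l - ℓ`, `∑ ρ_l ≤ s + 1`. Moreover there are
derivations of `ℂ` over `K` which multiply `θ_i` by `2` and kill the other `θ`; since they respect the relations in `ℱ` they
move the periods in the direction of the torus up to an element of the conjugate of `𝔤` (`exists_tor`), and their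
ultraproducts give `t` further dimensions (`MW.absM`, `MW.uniformWM`). So the transcendence degree over the field of constants
of all these derivations, which contains all numbers of bounded degree over `K`, is at least `dim 𝔤 + t - ρ_l - ℓ`.
-/

set_option autoImplicit false

open PowerSeries Filter
open scoped Matrix

namespace Pool.Agent.Results.MP_12eca1_ag.DefectsNearDegenerate

section several
variable {n m N : ℕ}

/-- an integer polynomial in `m` variables as a power series with rational coefficients -/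
noncomputable def toQ (P : MvPolynomial (Fin m) ℤ) : MvPowerSeries (Fin m) ℚ :=
  ((P.map (Int.castRingHom ℚ) : MvPolynomial (Fin m) ℚ) : MvPowerSeries (Fin m) ℚ)

/-- the partial derivative `∂f / ∂x_i` -/
noncomputable def partialD (i : Fin m) (f : MvPowerSeries (Fin m) ℚ) : MvPowerSeries (Fin m) ℚ :=
  fun ν => ((ν i : ℚ) + 1) * MvPowerSeries.coeff (ν + Finsupp.single i 1) f

/-- `Z` is an invertible `n × n` matrix of G-functions in `m` variables with rational coefficients, `W = Z⁻¹`, `R_1, …, R_m`
are commuting nilpotent integral matrices, and `x_1^(R_1) ⋯ x_m^(R_m) Z` solves a system with logarithmic poles, that is,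
`T (x_i ∂Z / ∂x_i + R_i Z) = Z A_i`, `i = 1, …, m`. The degrees of `T` and `A_i` are at most `q`; the absolute values of their
coefficients and of the entries of the `R_i` and the growth of the coefficients of `Z` and of the denominators of the
coefficients of `Z` and `W` are bounded by `H`. -/
structure Family (q : ℕ) (H : ℝ) (T : MvPolynomial (Fin m) ℤ) (A : Fin m → Fin n → Fin n → MvPolynomial (Fin m) ℤ)
    (R : Fin m → Matrix (Fin n) (Fin n) ℤ) (Z W : Matrix (Fin n) (Fin n) (MvPowerSeries (Fin m) ℚ)) : Prop where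
  /-- the degree of `T` -/
  degT : T.totalDegree ≤ q
  /-- the height of `T` -/
  sizeT : ∀ ν, |((T.coeff ν : ℤ) : ℝ)| ≤ H
  /-- the degrees of the `A_i` -/
  degA : ∀ i a b, (A i a b).totalDegree ≤ q
  /-- the heights of the `A_i` -/
  sizeA : ∀ i a b ν, |(((A i a b).coeff ν : ℤ) : ℝ)| ≤ H
  /-- the residues commute -/
  comm : ∀ i i', R i * R i' = R i' * R i
  /-- the residues are nilpotent -/
  nil : ∀ i, R i ^ n = 0
  /-- the size of the residues -/
  sizeR : ∀ i a b, |((R i a b : ℤ) : ℝ)| ≤ H
  /-- the differential equations -/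
  ode : ∀ i a b, toQ T * (MvPowerSeries.X i * partialD i (Z a b) + ∑ c, MvPowerSeries.C (R i a c : ℚ) * Z c b) =
    ∑ l, Z a l * toQ (A i l b)
  /-- `W` is the inverse of `Z` -/
  inv : W * Z = 1
  /-- the growth of the coefficients -/
  size : ∀ a b (ν : Fin m →₀ ℕ), |((MvPowerSeries.coeff ν (Z a b) : ℚ) : ℝ)| ≤ H ^ (∑ i, ν i + 1)
  /-- the growth of the common denominators of the coefficients -/
  den : ∀ k : ℕ, ∃ d : ℕ, 0 < d ∧ (d : ℝ) ≤ H ^ (k + 1) ∧ ∀ a b (ν : Fin m →₀ ℕ), ∑ i, ν i ≤ k →
    (∃ z : ℤ, (d : ℚ) * MvPowerSeries.coeff ν (Z a b) = z) ∧ ∃ z : ℤ, (d : ℚ) * MvPowerSeries.coeff ν (W a b) = z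

/-- the matrix `R_1 + … + R_m`, the residue of the restriction to a line through `0`, over `ℂ` -/
noncomputable def residue (R : Fin m → Matrix (Fin n) (Fin n) ℤ) : Matrix (Fin n) (Fin n) ℂ :=
  (∑ i, R i).map (Int.castRingHom ℂ)

/-- the power series `f(x a)` in the variable `x`, the restriction of `f` to the line through `0` with direction `a` -/
noncomputable def restrict (a : Fin m → ℤ) (f : MvPowerSeries (Fin m) ℚ) : PowerSeries ℚ :=
  PowerSeries.mk fun k => ∑ ν ∈ (Finset.univ : Finset (Fin m)).finsuppAntidiag k,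
    MvPowerSeries.coeff ν f * ∏ i, (a i : ℚ) ^ ν i

/-- the value `Z(a / b)`, that is, the value of the restriction of `Z` to the line at `x = 1 / b` -/
noncomputable def value (Z : Matrix (Fin n) (Fin n) (MvPowerSeries (Fin m) ℚ)) (a : Fin m → ℤ) (b : ℕ) :
    Matrix (Fin n) (Fin n) ℂ :=
  Matrix.of fun i j => ((∑' k : ℕ, ((coeff k (restrict a (Z i j)) : ℚ) : ℝ) * (1 / (b : ℝ)) ^ k : ℝ) : ℂ)

/-- the matrix `u^(R_1 + … + R_m) Z(a u)` at `u = 1 / b`, that is, `exp (-log(b) (R_1 + … + R_m)) Z(a / b)` -/
noncomputable def solution (R : Fin m → Matrix (Fin n) (Fin n) ℤ) (Z : Matrix (Fin n) (Fin n) (MvPowerSeries (Fin m) ℚ))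
    (a : Fin m → ℤ) (b : ℕ) : Matrix (Fin n) (Fin n) ℂ :=
  NormedSpace.exp (-((Real.log b : ℂ) • residue R)) * value Z a b

/-- the restriction of `Z` to the line with direction `a`, over `ℂ` -/
noncomputable def onLine (a : Fin m → ℤ) (Z : Matrix (Fin n) (Fin n) (MvPowerSeries (Fin m) ℚ)) :
    Matrix (Fin n) (Fin n) (PowerSeries ℂ) :=
  Z.map fun f => PowerSeries.map (algebraMap ℚ ℂ) (restrict a f)

/-- `(X_1, …, X_N)` is an infinitesimal symmetry of the matrices `Y_1, …, Y_N` of power series: for all polynomial relations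
`R(x, Y_1(x), …, Y_N(x)) = 0` over `ℂ[x]` the derivative of `R(x, (1 + ε X_1) Y_1(x), …, (1 + ε X_N) Y_N(x))` at `ε = 0` is
zero. -/
def Symmetry (Y : Fin N → Matrix (Fin n) (Fin n) (PowerSeries ℂ)) (X : Fin N → Matrix (Fin n) (Fin n) ℂ) : Prop :=
  ∀ R : MvPolynomial (Fin N × Fin n × Fin n) (Polynomial ℂ),
    MvPolynomial.aeval (fun σ => Y σ.1 σ.2.1 σ.2.2) R = 0 →
    ∑ σ, MvPolynomial.aeval (fun σ => Y σ.1 σ.2.1 σ.2.2) (MvPolynomial.pderiv σ R) *
      ((X σ.1).map (PowerSeries.C (R := ℂ)) * Y σ.1) σ.2.1 σ.2.2 = 0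

end several

/-- `y` satisfies an equation `P(ξ, y) = 0` where `P` has rational coefficients and total degree at most `e` and `P(ξ, Y)` is
not the zero polynomial. All algebraic numbers of degree at most `e` and all polynomials of degree at most `e` in the `ξ_i` with
rational coefficients have this property. -/
def AlgebraicOver (e : ℕ) {u : ℕ} (ξ : Fin u → ℂ) (y : ℂ) : Prop :=
  ∃ P : MvPolynomial (Option (Fin u)) ℚ, P.totalDegree ≤ e ∧ MvPolynomial.aeval (fun o : Option (Fin u) => o.elim y ξ) P = 0 ∧
    ∃ y' : ℂ, MvPolynomial.aeval (fun o : Option (Fin u) => o.elim y' ξ) P ≠ 0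

/-- numbers which are algebraic over `ℚ(ξ_1, …, ξ_u)` are algebraic of bounded degree -/
theorem algebraicOver_of_isAlgebraic {u : ℕ} {ξ : Fin u → ℂ} {y : ℂ}
    (h : IsAlgebraic (IntermediateField.adjoin ℚ (Set.range ξ)) y) : ∃ e, AlgebraicOver e ξ y :=
  Pool.Agent.H885.algD_of_alg h

/-- The transcendence degree over `ℚ(ξ_1, …, ξ_u)` of the entries of the matrices `P_1, …, P_N` is at least `t`, in degree at
most `δ`: some `t` of the entries (at different places) satisfy no nonzero polynomial relation of degree at most `δ` the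
coefficients of which are algebraic of degree at most `e` over `ξ_1, …, ξ_u`. -/
def TrdegAtLeast {n N : ℕ} (t e δ : ℕ) {u : ℕ} (ξ : Fin u → ℂ) (P : Fin N → Matrix (Fin n) (Fin n) ℂ) : Prop :=
  ∃ σ : Fin t → Fin N × Fin n × Fin n, Function.Injective σ ∧ ∀ S : MvPolynomial (Fin t) ℂ, S.totalDegree ≤ δ →
    (∀ ν, AlgebraicOver e ξ (S.coeff ν)) →
    MvPolynomial.aeval (fun i => P (σ i).1 (σ i).2.1 (σ i).2.2) S = 0 → S = 0

/-- the distance of `b` and `c` is larger than `2^(m+1) H (h + 2)` -/
def Far (m : ℕ) (H : ℝ) (h b c : ℕ) : Prop := 2 ^ (m + 1) * H * ((h : ℝ) + 2) < |(b : ℝ) - c|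

/-- A tuple of `N` fibres: denominators `b_j` and numerators `a_j` of the points, systems `T_j, A_j, R_j`, their fundamental
matrices `Z_j` and `W_j = Z_j⁻¹`, and the period matrices `C_j` of the limits, `ℓ` further numbers `γ`, a space `𝔤` of tuples of
matrices, for instance the Lie algebra of the monodromy group, generators `η` of a field `K`, the periods `θ` of a torus
of dimension `t`, its weights, and a set `ℱ` of polynomials in the entries of `N` matrices. -/
structure Fibres (m n N ℓ t u : ℕ) where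
  /-- the denominators of the points -/
  b : Fin N → ℕ
  /-- the numerators of the points -/
  a : Fin N → Fin m → ℤ
  /-- the denominators of the systems -/
  T : Fin N → MvPolynomial (Fin m) ℤ
  /-- the matrices of the systems -/
  A : Fin N → Fin m → Fin n → Fin n → MvPolynomial (Fin m) ℤ
  /-- the residues -/
  R : Fin N → Fin m → Matrix (Fin n) (Fin n) ℤ
  /-- the fundamental matrices -/
  Z : Fin N → Matrix (Fin n) (Fin n) (MvPowerSeries (Fin m) ℚ)
  /-- their inverses -/
  W : Fin N → Matrix (Fin n) (Fin n) (MvPowerSeries (Fin m) ℚ)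
  /-- further constants -/
  γ : Fin ℓ → ℂ
  /-- the periods of the limits -/
  C : Fin N → Matrix (Fin n) (Fin n) ℂ
  /-- symmetries -/
  𝔤 : Submodule ℂ (Fin N → Matrix (Fin n) (Fin n) ℂ)
  /-- the generators of the field `K` -/
  η : Fin u → ℂ
  /-- the periods of the torus -/
  θ : Fin t → ℂ
  /-- the weights of the torus -/
  v : Fin t → Fin N → ℕ
  /-- the known relations -/
  ℱ : Set (MvPolynomial (Fin N × Fin n × Fin n) ℂ)

section fibres

/-- the period matrices `C_j exp (-log(b_j) R_j) Z_j(a_j / b_j)` of the fibres -/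
noncomputable def Fibres.periods {m n N ℓ t u : ℕ} (x : Fibres m n N ℓ t u) : Fin N → Matrix (Fin n) (Fin n) ℂ :=
  fun j => x.C j * solution (x.R j) (x.Z j) (x.a j) (x.b j)

/-- the conjugates `exp (λ R_j) X_j exp (-λ R_j)` -/
noncomputable def Fibres.conjugate {m n N ℓ t u : ℕ} (x : Fibres m n N ℓ t u) (lam : ℂ) (X : Fin N → Matrix (Fin n) (Fin n) ℂ) :
    Fin N → Matrix (Fin n) (Fin n) ℂ :=
  fun j => NormedSpace.exp (lam • residue (x.R j)) * X j * NormedSpace.exp (-(lam • residue (x.R j)))

/-- The polynomials `f` in `ℱ` have coefficients algebraic over `K = ℚ(η)`, they are homogeneous for the weights `v_i`, and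
`f(P)²` is the product of a number algebraic over `K` and of the powers `θ_i ^ d_i`, where `d_i` is the weight of `f`. -/
structure Known {n N t u : ℕ} (η : Fin u → ℂ) (θ : Fin t → ℂ) (v : Fin t → Fin N → ℕ) (ℱ : Set (MvPolynomial (Fin N × Fin n × Fin n) ℂ))
    (P : Fin N → Matrix (Fin n) (Fin n) ℂ) : Prop where
  /-- the coefficients are algebraic -/
  algebraic : ∀ f ∈ ℱ, ∀ ν, IsAlgebraic (IntermediateField.adjoin ℚ (Set.range η)) (f.coeff ν)
  /-- the weights and the values -/
  value : ∀ f ∈ ℱ, ∃ d : Fin t → ℕ, (∀ i, f.IsWeightedHomogeneous (fun σ => v i σ.1) (d i)) ∧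
    ∃ q : ℂ, IsAlgebraic (IntermediateField.adjoin ℚ (Set.range η)) q ∧
      (MvPolynomial.eval (fun σ => P σ.1 σ.2.1 σ.2.2) f) ^ 2 = (∏ i, θ i ^ d i) * q

/-- the tuple `Y` is tangent to the relations: for all `f` in `ℱ` the derivative of `f((1 + ε Y) P)` at `ε = 0` is zero -/
def Tangent {n N : ℕ} (ℱ : Set (MvPolynomial (Fin N × Fin n × Fin n) ℂ)) (P Y : Fin N → Matrix (Fin n) (Fin n) ℂ) : Prop :=
  ∀ f ∈ ℱ, ∑ σ, MvPolynomial.eval (fun σ => P σ.1 σ.2.1 σ.2.2) (MvPolynomial.pderiv σ f) * (Y σ.1 * P σ.1) σ.2.1 σ.2.2 = 0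

/-- The conditions for a tuple of fibres, see the description of the theorem. -/
structure Fibres.Valid {m n N ℓ t u s : ℕ} (q M e : ℕ) (β : Fin s → ℂ) (H : ℝ) (h w b₀ : ℕ) (x : Fibres m n N ℓ t u) : Prop where
  /-- the denominators are in the window `[b₀, b₀ + w]` -/
  window : ∀ j, b₀ ≤ x.b j ∧ x.b j ≤ b₀ + w
  /-- they are equal or far from each other -/
  far : ∀ i j, x.b i = x.b j ∨ Far m H h (x.b i) (x.b j)
  /-- at most `M` of them are different -/
  different : (Finset.univ.image x.b).card ≤ M
  /-- the numerators are bounded by `h` -/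
  numerators : ∀ j i, |x.a j i| ≤ h
  /-- the systems have degree at most `q`, height and growth constants at most `H` -/
  family : ∀ j, Family q H (x.T j) (x.A j) (x.R j) (x.Z j) (x.W j)
  /-- the lines are not contained in the polar loci -/
  pole : ∀ j, restrict (x.a j) (toQ (x.T j)) ≠ 0
  /-- the periods of the limits are algebraic over `ℚ(β, γ)` -/
  central : ∀ j i i', AlgebraicOver e (Fin.append β x.γ) (x.C j i i')
  /-- the period matrices are invertible -/
  invertible : ∀ j, IsUnit (x.periods j)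
  /-- `𝔤` consists of infinitesimal symmetries, separately for each denominator `c` -/
  symmetries : ∀ X ∈ x.𝔤, ∀ c : ℕ,
    Symmetry (fun j => if x.b j = c then onLine (x.a j) (x.Z j) else 1) (fun j => if x.b j = c then X j else 0)
  /-- `𝔤` is stable under the conjugation by `exp (λ R)` -/
  stable : ∀ X ∈ x.𝔤, ∀ lam : ℂ, x.conjugate lam X ∈ x.𝔤
  /-- the generators of `K` are algebraic over `ℚ(β, γ)` -/
  field : ∀ i, AlgebraicOver e (Fin.append β x.γ) (x.η i)
  /-- the periods of the torus are algebraically independent over `K` -/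
  independent : AlgebraicIndependent (IntermediateField.adjoin ℚ (Set.range x.η)) x.θ
  /-- the known relations -/
  known : Known x.η x.θ x.v x.ℱ x.periods
  /-- the directions which are tangent to the known relations are in the conjugate of `𝔤` by the `C_j`; there is no condition if
  the torus is trivial -/
  tangent : 0 < t → ∀ Y, Tangent x.ℱ x.periods Y → (fun j => (x.C j)⁻¹ * Y j * x.C j) ∈ x.𝔤
  /-- the Lie algebra of the torus, which acts by scalars, meets `𝔤` only in zero -/
  torus : ∀ c : Fin t → ℂ, (fun j => (∑ i, c i * x.v i j) • (1 : Matrix (Fin n) (Fin n) ℂ)) ∈ x.𝔤 → c = 0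

/-- The defect of the tuple of fibres is at most `ρ`, in bounded degree: the transcendence degree of their periods over `K`
is at least `dim 𝔤 + t - ρ`. -/
def Fibres.DefectAtMost {m n N ℓ t u : ℕ} (e δ : ℕ) (x : Fibres m n N ℓ t u) (ρ : ℕ) : Prop :=
  TrdegAtLeast (Module.finrank ℂ x.𝔤 + t - ρ) e δ x.η x.periods

/-- the denominators of two tuples of fibres are far from each other -/
def Separated {m n N ℓ t u : ℕ} (H : ℝ) (h : ℕ) (x y : Fibres m n N ℓ t u) : Prop := ∀ i j, Far m H h (x.b i) (y.b j)

/-- the denominators `b ≤ B` of the tuples of fibres over points `a_j / b` which satisfy the conditions (for the window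
`{b}`) but have a defect larger than `ℓ` -/
def exceptional (m n N ℓ t u : ℕ) {s : ℕ} (q e δ : ℕ) (β : Fin s → ℂ) (H : ℝ) (h B : ℕ) : Set ℕ :=
  {b | b ≤ B ∧ ∃ x : Fibres m n N ℓ t u, x.Valid q 1 e β H h 0 b ∧ (∀ j, x.b j = b) ∧ ¬ x.DefectAtMost e δ ℓ}

end fibres

/-! ## The relations of Riemann and Legendre -/

/-- `2 π i` is transcendental (Lindemann) -/
theorem pi_independent (η : Fin 0 → ℂ) : AlgebraicIndependent (IntermediateField.adjoin ℚ (Set.range η))
    (fun _ : Fin 1 => 2 * (Real.pi : ℂ) * Complex.I) := by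
  rw [algebraicIndependent_unique_type_iff]
  intro h'
  have h : IsAlgebraic ℚ (2 * (Real.pi : ℂ) * Complex.I) := by
    rw [Set.range_eq_empty, IntermediateField.adjoin_empty] at h'
    exact h'.restrictScalars ℚ
  have h1 : IsAlgebraic ℚ Complex.I := by
    refine ⟨Polynomial.X ^ 2 + 1, ?_, by simp⟩
    intro h0
    have h2 := congrArg (Polynomial.eval 0) h0
    simp at h2
  have h2 : (Real.pi : ℂ) = (2 * (Real.pi : ℂ) * Complex.I) * (-Complex.I) * ((2 : ℚ) : ℂ)⁻¹ := by
    linear_combination (Real.pi : ℂ) * Complex.I_sq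
  refine Pool.Agent.H340R2.LW.transcendental_pi_complex ?_
  rw [h2]
  exact (h.mul h1.neg).mul (isAlgebraic_algebraMap (R := ℚ) (A := ℂ) 2).inv

/-- the entries of the matrices `X_jᵀ J_j X_j` -/
noncomputable def bilinear {n N : ℕ} (J : Fin N → Matrix (Fin n) (Fin n) ℂ) (j : Fin N) (a b : Fin n) :
    MvPolynomial (Fin N × Fin n × Fin n) ℂ :=
  ∑ c, ∑ d, MvPolynomial.C (J j c d) * (MvPolynomial.X (j, c, a) * MvPolynomial.X (j, d, b))

/-- the relations of Riemann and Legendre -/
def legendre {n N : ℕ} (J : Fin N → Matrix (Fin n) (Fin n) ℂ) : Set (MvPolynomial (Fin N × Fin n × Fin n) ℂ) :=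
  {f | ∃ j a b, f = bilinear J j a b}

theorem eval_bilinear {n N : ℕ} (J P : Fin N → Matrix (Fin n) (Fin n) ℂ) (j : Fin N) (a b : Fin n) :
    MvPolynomial.eval (fun σ => P σ.1 σ.2.1 σ.2.2) (bilinear J j a b) = ((P j)ᵀ * J j * P j) a b := by
  unfold bilinear
  rw [map_sum, Matrix.mul_assoc, Matrix.mul_apply]
  refine Finset.sum_congr rfl fun c _ => ?_
  rw [map_sum, Matrix.mul_apply, Finset.mul_sum]
  refine Finset.sum_congr rfl fun d _ => ?_
  rw [map_mul, map_mul, MvPolynomial.eval_C, MvPolynomial.eval_X, MvPolynomial.eval_X, Matrix.transpose_apply]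
  ring

/-- for polarized families the relations of Riemann and Legendre are known relations -/
theorem known_polarized {n N u : ℕ} (η : Fin u → ℂ) {J Q P : Fin N → Matrix (Fin n) (Fin n) ℂ} {w : Fin N → ℕ}
    (hJ : ∀ j a b, IsAlgebraic ℚ (J j a b)) (hQ : ∀ j a b, IsAlgebraic ℚ (Q j a b))
    (hP : ∀ j, (P j)ᵀ * J j * P j = (2 * (Real.pi : ℂ) * Complex.I) ^ w j • Q j) :
    Known η (fun _ : Fin 1 => 2 * (Real.pi : ℂ) * Complex.I) (fun _ => w) (legendre J) P := by
  classical
  refine ⟨?_, ?_⟩
  · rintro F ⟨j, a, b, rfl⟩ ν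
    refine IsAlgebraic.tower_top (K := ℚ) _ ?_
    unfold bilinear
    rw [MvPolynomial.coeff_sum]
    refine mem_algebraicClosure_iff.1 ((algebraicClosure ℚ ℂ).sum_mem fun c _ => mem_algebraicClosure_iff.2 ?_)
    rw [MvPolynomial.coeff_sum]
    refine mem_algebraicClosure_iff.1 ((algebraicClosure ℚ ℂ).sum_mem fun d _ => mem_algebraicClosure_iff.2 ?_)
    rw [MvPolynomial.coeff_C_mul, MvPolynomial.coeff_X_mul', MvPolynomial.coeff_X]
    refine (hJ j c d).mul ?_
    split_ifs
    · exact isAlgebraic_one
    · exact isAlgebraic_zero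
    · exact isAlgebraic_zero
  · rintro F ⟨j, a, b, rfl⟩
    refine ⟨fun _ => 2 * w j, fun i => ?_, Q j a b ^ 2, IsAlgebraic.tower_top (K := ℚ) _ ((hQ j a b).pow 2), ?_⟩
    · unfold bilinear
      refine MvPolynomial.IsWeightedHomogeneous.sum _ _ _ fun c _ => ?_
      refine MvPolynomial.IsWeightedHomogeneous.sum _ _ _ fun d _ => ?_
      have h1 := (MvPolynomial.isWeightedHomogeneous_X ℂ (fun σ : Fin N × Fin n × Fin n => w σ.1) (j, c, a)).mul
        (MvPolynomial.isWeightedHomogeneous_X ℂ (fun σ : Fin N × Fin n × Fin n => w σ.1) (j, d, b))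
      have h2 := (MvPolynomial.isWeightedHomogeneous_C (fun σ : Fin N × Fin n × Fin n => w σ.1) (J j c d)).mul h1
      have h3 : 0 + (w j + w j) = 2 * w j := by ring
      rw [← h3]
      exact h2
    · rw [eval_bilinear, hP j, Matrix.smul_apply, smul_eq_mul, Fin.prod_univ_one]
      ring

/-- for polarized families the tangent directions are the infinitesimal isometries of the forms `J_j` -/
theorem tangent_polarized {n N : ℕ} {J P Y : Fin N → Matrix (Fin n) (Fin n) ℂ} (hP : ∀ j, IsUnit (P j).det)
    (hY : Tangent (legendre J) P Y) : ∀ j, (Y j)ᵀ * J j + J j * Y j = 0 := by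
  classical
  intro j
  have h1 : (P j)ᵀ * ((Y j)ᵀ * J j + J j * Y j) * P j = 0 := by
    refine Matrix.ext fun a b => ?_
    rw [Matrix.zero_apply, ← hY _ ⟨j, a, b, rfl⟩]
    have h2 : ∀ σ, MvPolynomial.pderiv σ (bilinear J j a b) = ∑ c, ∑ d, MvPolynomial.C (J j c d) *
        ((if (j, c, a) = σ then 1 else 0) * MvPolynomial.X (j, d, b) +
          MvPolynomial.X (j, c, a) * (if (j, d, b) = σ then 1 else 0)) := by
      intro σ
      unfold bilinear
      rw [map_sum]
      refine Finset.sum_congr rfl fun c _ => ?_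
      rw [map_sum]
      refine Finset.sum_congr rfl fun d _ => ?_
      rw [MvPolynomial.pderiv_C_mul, MvPolynomial.pderiv_mul, MvPolynomial.pderiv_X, MvPolynomial.pderiv_X]
      rw [Pi.single_apply, Pi.single_apply]
    have h3 : ∀ σ : Fin N × Fin n × Fin n, MvPolynomial.eval (fun σ => P σ.1 σ.2.1 σ.2.2) (MvPolynomial.pderiv σ (bilinear J j a b)) *
        (Y σ.1 * P σ.1) σ.2.1 σ.2.2 = ∑ c, ∑ d, J j c d * ((if (j, c, a) = σ then P j d b * (Y σ.1 * P σ.1) σ.2.1 σ.2.2 else 0) +
          (if (j, d, b) = σ then P j c a * (Y σ.1 * P σ.1) σ.2.1 σ.2.2 else 0)) := by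
      intro σ
      rw [h2, map_sum, Finset.sum_mul]
      refine Finset.sum_congr rfl fun c _ => ?_
      rw [map_sum, Finset.sum_mul]
      refine Finset.sum_congr rfl fun d _ => ?_
      rw [map_mul, map_add, map_mul, map_mul, MvPolynomial.eval_C, MvPolynomial.eval_X, MvPolynomial.eval_X]
      split_ifs <;> simp <;> ring
    rw [Finset.sum_congr rfl fun σ _ => h3 σ, Finset.sum_comm]
    rw [Matrix.mul_add, Matrix.add_mul, Matrix.add_apply]
    have h4 : ∀ c, ∑ σ : Fin N × Fin n × Fin n, ∑ d, J j c d * ((if (j, c, a) = σ then P j d b * (Y σ.1 * P σ.1) σ.2.1 σ.2.2 else 0) +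
          (if (j, d, b) = σ then P j c a * (Y σ.1 * P σ.1) σ.2.1 σ.2.2 else 0)) =
        ∑ d, J j c d * (P j d b * (Y j * P j) c a + P j c a * (Y j * P j) d b) := by
      intro c
      rw [Finset.sum_comm]
      refine Finset.sum_congr rfl fun d _ => ?_
      rw [← Finset.mul_sum, Finset.sum_add_distrib, Finset.sum_ite_eq, Finset.sum_ite_eq, if_pos (Finset.mem_univ _),
        if_pos (Finset.mem_univ _)]
    rw [Finset.sum_congr rfl fun c _ => h4 c]
    have h5 : (P j)ᵀ * ((Y j)ᵀ * J j) * P j = (Y j * P j)ᵀ * J j * P j := by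
      rw [Matrix.transpose_mul]
      simp only [Matrix.mul_assoc]
    have h6 : (P j)ᵀ * (J j * Y j) * P j = (P j)ᵀ * J j * (Y j * P j) := by
      simp only [Matrix.mul_assoc]
    rw [h5, h6, Matrix.mul_assoc, Matrix.mul_assoc, Matrix.mul_apply, Matrix.mul_apply, ← Finset.sum_add_distrib]
    refine Finset.sum_congr rfl fun c _ => ?_
    rw [Matrix.mul_apply, Matrix.mul_apply, Finset.mul_sum, Finset.mul_sum, ← Finset.sum_add_distrib]
    refine Finset.sum_congr rfl fun d _ => ?_
    rw [Matrix.transpose_apply, Matrix.transpose_apply]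
    ring
  have hPt : IsUnit ((P j)ᵀ).det := by
    rw [Matrix.det_transpose]
    exact hP j
  have h2 := congrArg (fun M => ((P j)ᵀ)⁻¹ * M * (P j)⁻¹) h1
  simp only [Matrix.mul_zero, Matrix.zero_mul] at h2
  rw [← h2, Matrix.mul_assoc (P j)ᵀ, Matrix.nonsing_inv_mul_cancel_left _ _ hPt, Matrix.mul_nonsing_inv_cancel_right _ _ (hP j)]

/-! ## Proofs -/

theorem base_of {m n q : ℕ} {H : ℝ} (hH : 1 ≤ H) {T : MvPolynomial (Fin m) ℤ}
    {A : Fin m → Fin n → Fin n → MvPolynomial (Fin m) ℤ} {R : Fin m → Matrix (Fin n) (Fin n) ℤ}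
    {Z W : Matrix (Fin n) (Fin n) (MvPowerSeries (Fin m) ℚ)}
    (h : Family q H T A R Z W) : Pool.Agent.H885.FamN q H T A R Z W :=
  ⟨hH, h.degT, h.sizeT, h.degA, h.sizeA, h.comm, h.nil, h.sizeR, h.ode, h.inv, h.size, h.den⟩

/-- the solution in terms of the polynomials for the exponential function -/
theorem solution_eq {m n q : ℕ} {H : ℝ} {T : MvPolynomial (Fin m) ℤ}
    {A : Fin m → Fin n → Fin n → MvPolynomial (Fin m) ℤ} {R : Fin m → Matrix (Fin n) (Fin n) ℤ}
    {Z W : Matrix (Fin n) (Fin n) (MvPowerSeries (Fin m) ℚ)} (h : Family q H T A R Z W) (a : Fin m → ℤ) (b : ℕ) :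
    solution R Z a b = Pool.Agent.H885.eP (∑ i, R i) (Complex.log (b : ℝ)) * value Z a b := by
  unfold solution residue
  rw [Pool.Agent.H885.eP_nexp (Pool.Agent.H885.sumR_nil h.comm h.nil), Complex.ofReal_log (by positivity)]

theorem sym_cent {m n N : ℕ} (Z : Fin N → Matrix (Fin n) (Fin n) (MvPowerSeries (Fin m) ℚ)) (a : Fin N → Fin m → ℤ)
    (b : Fin N → ℕ) (β : ℕ) :
    Pool.Agent.H885.cent (Pool.Agent.H885.part b (fun j => Pool.Agent.H885.lineM (a j) (Z j)) β) =
      fun σ : Fin N × Fin n × Fin n => (if b σ.1 = β then onLine (a σ.1) (Z σ.1) else 1) σ.2.1 σ.2.2 := by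
  funext σ
  unfold Pool.Agent.H885.cent Pool.Agent.H885.part
  by_cases hb : b σ.1 = β
  · rw [if_pos hb, if_pos hb]
    rfl
  · rw [if_neg hb, if_neg hb, Matrix.one_apply, Matrix.one_apply]
    split_ifs
    · exact map_one _
    · exact map_zero _

theorem sym_inf {m n N : ℕ} {Z : Fin N → Matrix (Fin n) (Fin n) (MvPowerSeries (Fin m) ℚ)} {a : Fin N → Fin m → ℤ}
    {b : Fin N → ℕ} {β : ℕ} {X : Fin N → Matrix (Fin n) (Fin n) ℂ} :
    Symmetry (fun j => if b j = β then onLine (a j) (Z j) else 1) (fun j => if b j = β then X j else 0) ↔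
    Pool.Agent.H885.InfT (Pool.Agent.H885.part b (fun j => Pool.Agent.H885.lineM (a j) (Z j)) β)
      (fun j => if b j = β then X j else 0) := by
  have h1 := sym_cent Z a b β
  constructor
  · intro h R hR
    rw [h1] at hR ⊢
    refine Eq.trans ?_ (h R hR)
    refine Finset.sum_congr rfl fun σ _ => ?_
    rw [Matrix.mul_apply]
    rfl
  · intro h R hR
    have h2 := h R (by
      rw [h1]
      exact hR)
    rw [h1] at h2
    refine Eq.trans ?_ h2
    refine Finset.sum_congr rfl fun σ _ => ?_
    rw [Matrix.mul_apply]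
    rfl

theorem far_symm {m : ℕ} {H : ℝ} {h b c : ℕ} (hbc : Far m H h b c) : Far m H h c b := by
  unfold Far at hbc ⊢
  rw [abs_sub_comm]
  exact hbc

/-- the conjugates in terms of the polynomials for the exponential function -/
theorem conj_eq {m n N ℓ t u : ℕ} {x : Fibres m n N ℓ t u} (hR : ∀ j, (∑ i, x.R j i) ^ n = 0) (lam : ℂ)
    (X : Fin N → Matrix (Fin n) (Fin n) ℂ) (j : Fin N) :
    x.conjugate lam X j = Pool.Agent.H885.cjg (fun j => ∑ i, x.R j i) lam X j := by
  unfold Fibres.conjugate Pool.Agent.H885.cjg residue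
  rw [Pool.Agent.H885.eP_nexp (hR j), Pool.Agent.H885.eP_nexp (hR j), neg_smul, neg_neg]

/-- the periods -/
theorem periods_eq {m n N ℓ t u q : ℕ} {H : ℝ} {x : Fibres m n N ℓ t u} (hF : ∀ j, Family q H (x.T j) (x.A j) (x.R j) (x.Z j) (x.W j))
    {t₀ : ℕ} (ht₀ : 0 < t₀) (hb : ∀ j, 0 < x.b j) (j : Fin N) :
    solution (x.R j) (x.Z j) (x.a j) (x.b j) = Pool.Agent.H885.eP (∑ i, x.R j i) (Complex.log (t₀ : ℝ)) *
      Pool.Agent.H885.zT t₀ (∑ i, x.R j i) (Pool.Agent.H885.lineM (x.a j) (x.Z j)) (x.b j) := by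
  rw [solution_eq (hF j)]
  unfold Pool.Agent.H885.zT
  have hb' : (0 : ℝ) < x.b j := by exact_mod_cast hb j
  have ht' : (0 : ℝ) < t₀ := by exact_mod_cast ht₀
  have h1 : Complex.log ((x.b j : ℝ) : ℂ) = Complex.log ((t₀ : ℝ) : ℂ) + Complex.log (((x.b j : ℝ) : ℂ) / ((t₀ : ℝ) : ℂ)) := by
    rw [← Complex.ofReal_div, ← Complex.ofReal_log hb'.le, ← Complex.ofReal_log ht'.le, ← Complex.ofReal_log (by positivity),
      Real.log_div hb'.ne' ht'.ne']
    push_cast
    ring
  rw [h1, Pool.Agent.H885.eP_add (Pool.Agent.H885.sumR_nil (hF j).comm (hF j).nil), ← Matrix.mul_assoc]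
  rfl

/-- a bounded number of separated tuples -/
theorem core (m n N q s ℓ t u e δ L : ℕ) (d : Fin L → ℕ) : ∃ E : ℕ,
    ∀ (M : ℕ) (β : Fin s → ℂ) (H : ℝ) (h w b₀ : ℕ), 1 ≤ H →
    (2 * H * ((h : ℝ) + w + 2)) ^ E ≤ (b₀ : ℝ) → ∀ x : Fin L → Fibres m n N ℓ t u, (∀ l, (x l).Valid q M e β H h w b₀) →
    (∀ l l', l ≠ l' → Separated H h (x l) (x l')) → (∀ l, d l = Module.finrank ℂ (x l).𝔤) →
    ∃ ρ : Fin L → ℕ, ∑ l, ρ l ≤ s + 1 ∧ ∀ l, (x l).DefectAtMost e δ (ρ l + ℓ) := by
  classical
  set e' : ℕ := max e (max 1 n) with he'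
  obtain ⟨E₀, hbase⟩ := Pool.Agent.H885.base_sysN m n q
  obtain ⟨E, hE⟩ := Pool.Agent.H885.MW.uniformWM n N q (s + 1) ℓ t u e' δ L d
  obtain ⟨e₁, he₁⟩ := Pool.Agent.H885.pow_absorb (c := (2 : ℝ) * (1 + 2 ^ m)) (by
    have : (1 : ℝ) ≤ 2 ^ m := one_le_pow₀ (by norm_num)
    linarith)
  refine ⟨(e₁ + E₀ + 1) * E + 1, fun M β H h w b₀ hH hbig₀ xs hxs hsep hd => ?_⟩
  set x : ℝ := 2 * H * ((h : ℝ) + w + 2) with hx
  have hh0 : (0 : ℝ) ≤ h := by positivity
  have hw0 : (0 : ℝ) ≤ w := by positivity
  have hx1 : (h : ℝ) + w + 2 ≤ x := by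
    rw [hx]
    nlinarith
  have hx2 : 2 ≤ x := by linarith
  have hx3 : H * ((h : ℝ) + 2) ≤ x := by
    rw [hx]
    nlinarith
  have hx4 : 2 * H * ((h : ℝ) + 2) ≤ x := by
    rw [hx]
    nlinarith
  have hb₀ : 0 < b₀ := by
    have h1 : (1 : ℝ) ≤ x ^ ((e₁ + E₀ + 1) * E + 1) := one_le_pow₀ (by linarith)
    have h2 : (1 : ℝ) ≤ b₀ := h1.trans hbig₀
    exact_mod_cast h2
  have hbig : x ^ ((e₁ + E₀ + 1) * E) ≤ (b₀ : ℝ) := (pow_le_pow_right₀ (by linarith) (Nat.le_succ _)).trans hbig₀
  have hbig' : (2 * (2 * H * ((h : ℝ) + 2)) ^ E₀ * ((w : ℝ) + 2 ^ m * (H * ((h : ℝ) + 2)) + 2)) ^ E ≤ (b₀ : ℝ) := by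
    refine le_trans ?_ hbig
    rw [pow_mul]
    refine pow_le_pow_left₀ (by positivity) ?_ E
    have h1 : (2 * H * ((h : ℝ) + 2)) ^ E₀ ≤ x ^ E₀ := pow_le_pow_left₀ (by positivity) hx4 _
    have h2 : (w : ℝ) + 2 ^ m * (H * ((h : ℝ) + 2)) + 2 ≤ (1 + 2 ^ m) * x := by
      have h3 : (2 : ℝ) ^ m * (H * ((h : ℝ) + 2)) ≤ 2 ^ m * x := mul_le_mul_of_nonneg_left hx3 (by positivity)
      linarith
    calc 2 * (2 * H * ((h : ℝ) + 2)) ^ E₀ * ((w : ℝ) + 2 ^ m * (H * ((h : ℝ) + 2)) + 2) ≤
        2 * x ^ E₀ * ((1 + 2 ^ m) * x) := by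
          refine mul_le_mul (by linarith) h2 (by positivity) (by positivity)
      _ = (2 * (1 + 2 ^ m)) * (x ^ E₀ * x) := by ring
      _ ≤ x ^ e₁ * (x ^ E₀ * x) := mul_le_mul_of_nonneg_right (he₁ x hx2) (by positivity)
      _ = x ^ (e₁ + E₀ + 1) := by ring
  have hFar : ∀ b c : ℕ, Far m H h b c → 2 * (2 ^ m * (H * ((h : ℝ) + 2))) < |(b : ℝ) - c| := by
    intro b c hbc
    refine lt_of_eq_of_lt ?_ hbc
    ring
  have hH1 : (1 : ℝ) ≤ (2 * H * ((h : ℝ) + 2)) ^ E₀ := one_le_pow₀ (by nlinarith)
  have hfam := fun l j => hbase H _ _ _ _ _ (base_of hH ((hxs l).family j)) h _ ((hxs l).numerators j) ((hxs l).pole j)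
  choose T' B' hT' hS' using hfam
  have hR : ∀ l j, (∑ i, (xs l).R j i) ^ n = 0 := fun l j =>
    Pool.Agent.H885.sumR_nil ((hxs l).family j).comm ((hxs l).family j).nil
  set X : Pool.Agent.H885.DatX L n N := ⟨fun l j => ∑ i, (xs l).R j i, (2 * H * ((h : ℝ) + 2)) ^ E₀, T', B',
    fun l j => Pool.Agent.H885.lineM ((xs l).a j) ((xs l).Z j), fun l j => Pool.Agent.H885.lineM ((xs l).a j) ((xs l).W j),
    2 ^ m * (H * ((h : ℝ) + 2)), w, b₀, fun l => (xs l).b, fun l => (xs l).𝔤⟩ with hX
  have ht0 : 0 < X.t := by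
    unfold Pool.Agent.H885.DatX.t
    omega
  set lt : ℂ := Complex.log ((X.t : ℝ) : ℂ) with hlt
  set Y : Pool.Agent.H885.MW.DatB L n N (s + 1) ℓ t u := ⟨Fin.cons lt β, fun l => (xs l).γ, fun l => (xs l).C,
    fun l j => Pool.Agent.H885.eP (∑ i, (xs l).R j i) lt, fun l j => X.z l j, fun l => (xs l).𝔤,
    fun l => (xs l).η, fun l => (xs l).θ, fun l => (xs l).v, fun l => (xs l).ℱ⟩ with hY
  have hsol : ∀ l j, solution ((xs l).R j) ((xs l).Z j) ((xs l).a j) ((xs l).b j) =
      Pool.Agent.H885.eP (∑ i, (xs l).R j i) lt * X.z l j := fun l j =>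
    periods_eq (hxs l).family ht0 (fun j => lt_of_lt_of_le hb₀ ((hxs l).window j).1) j
  have hP : ∀ l, Y.P l = (xs l).periods := by
    intro l
    funext j
    show (xs l).C j * Pool.Agent.H885.eP (∑ i, (xs l).R j i) lt * X.z l j = (xs l).C j * solution _ _ _ _
    rw [hsol, Matrix.mul_assoc]
  have hren : ∀ (l : Fin L) (y : ℂ), AlgebraicOver e (Fin.append β (xs l).γ) y →
      Pool.Agent.H885.AlgD e (Fin.append (Fin.cons lt β : Fin (s + 1) → ℂ) (xs l).γ) y := by
    intro l y hy
    refine Pool.Agent.H885.MW.algD_map (ξ := Fin.append β (xs l).γ)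
      (Fin.addCases (fun i => Fin.castAdd ℓ i.succ) (fun i => Fin.natAdd (s + 1) i)) (fun i => ?_) hy
    refine Fin.addCases (fun i => ?_) (fun i => ?_) i
    · rw [Fin.addCases_left, Fin.append_left, Fin.append_left, Fin.cons_succ]
    · rw [Fin.addCases_right, Fin.append_right, Fin.append_right]
  have hXOK : X.OK q E := ⟨hH1, hS', hT', by positivity, fun l j a' b' =>
      Pool.Agent.Y120.GH.cx_mem (by positivity) (Pool.Agent.H885.line_size hH (((hxs l).family j).size a' b')
        ((hxs l).numerators j)),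
      fun l j => (hxs l).window j, fun l j l' j' hne => by
        by_cases hll : l = l'
        · subst hll
          rcases (hxs l).far j j' with h2 | h2
          · exact absurd ⟨rfl, h2⟩ hne
          · exact hFar _ _ h2
        · exact hFar _ _ (hsep l l' hll j j'), hbig', fun l Z hZ c lam => by
          have h1 := sym_inf.1 ((hxs l).symmetries _ ((hxs l).stable Z hZ lam) c)
          have h2 : (fun j => if (xs l).b j = c then (xs l).conjugate lam Z j else 0) =
              fun j => if (xs l).b j = c then Pool.Agent.H885.cjg (fun j => ∑ i, (xs l).R j i) lam Z j else 0 := by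
            funext j
            rw [conj_eq (hR l)]
          rw [h2] at h1
          exact h1⟩
  have hYOK : Y.OK e' d := by
    refine ⟨fun l j i i' => ?_, fun l j i i' => ?_, fun l j => ?_, fun l => (hd l).le, fun l i => ?_, fun l => ?_, fun l => ?_,
      fun l ht Z hZ => ?_, fun l => (hxs l).torus⟩
    · exact Pool.Agent.H885.AlgD.mono (le_max_left _ _) (hren l _ ((hxs l).central j i i'))
    · have h1 := Pool.Agent.H885.algD_eP ((le_max_left _ _).trans (le_max_right _ _)) ((le_max_right _ _).trans (le_max_right _ _))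
        (∑ i, (xs l).R j i) (Fin.append (Fin.cons lt β : Fin (s + 1) → ℂ) (xs l).γ) (Fin.castAdd ℓ 0) i i' (e := e')
      rw [Fin.append_left, Fin.cons_zero] at h1
      exact h1
    · rw [hP]
      exact (Matrix.isUnit_iff_isUnit_det _).1 ((hxs l).invertible j)
    · exact Pool.Agent.H885.AlgD.mono (le_max_left _ _) (hren l _ ((hxs l).field i))
    · exact (hxs l).independent
    · rw [hP]
      exact ⟨(hxs l).known.algebraic, (hxs l).known.value⟩
    · rw [hP] at hZ
      have h1 := (hxs l).stable _ ((hxs l).tangent ht Z (fun f hf => by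
        refine Eq.trans ?_ (hZ f hf)
        rw [Pool.Agent.H885.eval_DVT])) lt
      have h3 : (fun j => (Y.C l j)⁻¹ * Z j * Y.C l j) = (xs l).conjugate lt
          (fun j => ((xs l).C j)⁻¹ * Z j * (xs l).C j) := by
        funext j
        rw [conj_eq (hR l)]
        show ((xs l).C j * Pool.Agent.H885.eP (∑ i, (xs l).R j i) lt)⁻¹ * Z j *
          ((xs l).C j * Pool.Agent.H885.eP (∑ i, (xs l).R j i) lt) = Pool.Agent.H885.eP (∑ i, (xs l).R j i) (-lt) *
            (((xs l).C j)⁻¹ * Z j * (xs l).C j) * Pool.Agent.H885.eP (∑ i, (xs l).R j i) lt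
        rw [Matrix.mul_inv_rev, Matrix.inv_eq_left_inv (Pool.Agent.H885.eP_inv (hR l j) lt)]
        simp only [Matrix.mul_assoc]
      rw [h3]
      exact h1
  obtain ⟨ρ, hρ, hρ'⟩ := hE X Y hXOK hYOK (fun l j => rfl) (fun l => rfl)
  refine ⟨ρ, hρ, fun l => ?_⟩
  unfold Fibres.DefectAtMost
  rw [← hd l, ← hP l]
  obtain ⟨σ, hσ, h1⟩ := hρ' l
  exact ⟨σ, hσ, fun S hS1 hS2 hS3 => h1 S hS1 (fun ν => Pool.Agent.H885.AlgD.mono (le_max_left _ _) (hS2 ν)) hS3⟩

/-- parts 1 and 2 -/
theorem parts (m n N M q s ℓ t u e δ : ℕ) :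
    ∃ E : ℕ, ∀ (β : Fin s → ℂ) (H : ℝ) (h w b₀ : ℕ), 1 ≤ H → (2 * H * ((h : ℝ) + w + 2)) ^ E ≤ (b₀ : ℝ) →
    (∀ (L : ℕ) (x : Fin L → Fibres m n N ℓ t u), (∀ l, (x l).Valid q M e β H h w b₀) →
      (∀ l l', l ≠ l' → Separated H h (x l) (x l')) →
      ∃ ρ : Fin L → ℕ, ∑ l, ρ l ≤ s + 1 ∧ ∀ l, (x l).DefectAtMost e δ (ρ l + ℓ)) ∧
    ∀ r : ℕ, ℓ ≤ r → ∃ 𝓔 : Finset ℕ, 𝓔.card ≤ M * ((s + 1) / (r + 1 - ℓ)) ∧
      ∀ x : Fibres m n N ℓ t u, x.Valid q M e β H h w b₀ → (∀ j, ∀ c ∈ 𝓔, Far m H h (x.b j) c) →
      x.DefectAtMost e δ r := by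
  classical
  choose E hE using core m n N q s ℓ t u e δ
  set D : ℕ := Module.finrank ℂ (Fin N → Matrix (Fin n) (Fin n) ℂ) with hD
  set E' : ℕ := ∑ L ∈ Finset.range (s + 3), ∑ d : Fin L → Fin (D + 1), E L fun l => (d l : ℕ) with hE'
  have hle : ∀ L, L ≤ s + 2 → ∀ d : Fin L → ℕ, (∀ l, d l ≤ D) → E L d ≤ E' := by
    intro L hL d hd
    have h1 := Finset.single_le_sum (f := fun L => ∑ d : Fin L → Fin (D + 1), E L fun l => (d l : ℕ))
      (fun _ _ => Nat.zero_le _) (Finset.mem_range.2 (by omega : L < s + 3))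
    have h2 := Finset.single_le_sum (f := fun d : Fin L → Fin (D + 1) => E L fun l => (d l : ℕ))
      (fun _ _ => Nat.zero_le _) (Finset.mem_univ fun l => (⟨d l, Nat.lt_succ_of_le (hd l)⟩ : Fin (D + 1)))
    exact h2.trans h1
  refine ⟨E', fun β H h w b₀ hH hbig => ?_⟩
  have hx1 : (1 : ℝ) ≤ 2 * H * ((h : ℝ) + w + 2) := by
    have h1 : (0 : ℝ) ≤ h := by positivity
    have h2 : (0 : ℝ) ≤ w := by positivity
    nlinarith
  -- at most `s + 2` tuples
  have hcore : ∀ (L : ℕ) (x : Fin L → Fibres m n N ℓ t u), L ≤ s + 2 → (∀ l, (x l).Valid q M e β H h w b₀) →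
      (∀ l l', l ≠ l' → Separated H h (x l) (x l')) →
      ∃ ρ : Fin L → ℕ, ∑ l, ρ l ≤ s + 1 ∧ ∀ l, (x l).DefectAtMost e δ (ρ l + ℓ) := by
    intro L x hL hx hsep
    refine hE L (fun l => Module.finrank ℂ (x l).𝔤) M β H h w b₀ hH ?_ x hx hsep fun l => rfl
    exact (pow_le_pow_right₀ hx1 (hle L hL _ fun l => Submodule.finrank_le _)).trans hbig
  -- the defect
  have hex : ∀ x : Fibres m n N ℓ t u, ∃ ρ, x.DefectAtMost e δ (ρ + ℓ) := by
    intro x
    refine ⟨Module.finrank ℂ x.𝔤 + t, ?_⟩
    unfold Fibres.DefectAtMost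
    have h1 : Module.finrank ℂ x.𝔤 + t - (Module.finrank ℂ x.𝔤 + t + ℓ) = 0 := by omega
    rw [h1]
    exact Pool.Agent.H885.trD_zero _ _
  set df : Fibres m n N ℓ t u → ℕ := fun x => Nat.find (hex x) with hdf
  have hdf1 : ∀ x : Fibres m n N ℓ t u, x.DefectAtMost e δ (df x + ℓ) := fun x => Nat.find_spec (hex x)
  have hdf2 : ∀ (x : Fibres m n N ℓ t u) (ρ : ℕ), x.DefectAtMost e δ (ρ + ℓ) → df x ≤ ρ := fun x ρ hρ => Nat.find_min' (hex x) hρ
  have hmain : ∀ (L : ℕ) (x : Fin L → Fibres m n N ℓ t u), (∀ l, (x l).Valid q M e β H h w b₀) →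
      (∀ l l', l ≠ l' → Separated H h (x l) (x l')) → ∑ l, df (x l) ≤ s + 1 := by
    intro L x hx hsep
    -- subsets
    have hsub : ∀ Λ : Finset (Fin L), Λ.card ≤ s + 2 → ∑ l ∈ Λ, df (x l) ≤ s + 1 := by
      intro Λ hΛ
      set f := Λ.orderEmbOfFin rfl with hf
      obtain ⟨ρ, hρ, hρ'⟩ := hcore Λ.card (fun i => x (f i)) hΛ (fun i => hx _) fun i i' hii =>
        hsep _ _ fun h1 => hii (f.injective h1)
      have h1 : ∑ i : Fin Λ.card, df (x (f i)) = ∑ l ∈ Λ, df (x l) := by
        have h2 : Λ = Finset.univ.map f.toEmbedding := by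
          rw [hf, ← Finset.coe_inj]
          simp
        conv_rhs => rw [h2, Finset.sum_map]
      rw [← h1]
      exact (Finset.sum_le_sum fun i _ => hdf2 _ _ (hρ' i)).trans hρ
    set Λ := Finset.univ.filter fun l => df (x l) ≠ 0 with hΛ
    have h1 : ∑ l, df (x l) = ∑ l ∈ Λ, df (x l) := by
      rw [hΛ, Finset.sum_filter_ne_zero]
    rcases le_or_gt Λ.card (s + 2) with h2 | h2
    · rw [h1]
      exact hsub Λ h2
    · obtain ⟨Λ', hΛ', hcard⟩ := Finset.exists_subset_card_eq (s := Λ) h2.le
      have h3 := hsub Λ' hcard.le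
      have h4 : Λ'.card ≤ ∑ l ∈ Λ', df (x l) := by
        rw [Finset.card_eq_sum_ones]
        refine Finset.sum_le_sum fun l hl => ?_
        have := (Finset.mem_filter.1 (hΛ' hl)).2
        omega
      omega
  refine ⟨fun L x hx hsep => ⟨fun l => df (x l), hmain L x hx hsep, fun l => hdf1 _⟩, fun r hr => ?_⟩
  -- the exceptional denominators
  set P : ℕ → Prop := fun p => ∃ x : Fin p → Fibres m n N ℓ t u, (∀ l, (x l).Valid q M e β H h w b₀) ∧
    (∀ l l', l ≠ l' → Separated H h (x l) (x l')) ∧ ∀ l, ¬ (x l).DefectAtMost e δ r with hP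
  have hPle : ∀ p, P p → p ≤ (s + 1) / (r + 1 - ℓ) := by
    rintro p ⟨x, hx, hsep, hbad⟩
    rw [Nat.le_div_iff_mul_le (by omega)]
    have h1 := hmain p x hx hsep
    have h2 : ∀ l, r + 1 - ℓ ≤ df (x l) := by
      intro l
      by_contra hcon
      apply hbad l
      refine Pool.Agent.H885.TrD.mono (t := Module.finrank ℂ (x l).𝔤 + t - (df (x l) + ℓ)) ?_ (hdf1 (x l))
      omega
    have h3 : ∑ _l : Fin p, (r + 1 - ℓ) ≤ ∑ l, df (x l) := Finset.sum_le_sum fun l _ => h2 l
    rw [Finset.sum_const, Finset.card_univ, Fintype.card_fin, smul_eq_mul] at h3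
    exact h3.trans h1
  have hP0 : P 0 := ⟨fun l => l.elim0, fun l => l.elim0, fun l => l.elim0, fun l => l.elim0⟩
  obtain ⟨p, hPp, hPp1⟩ : ∃ p, P p ∧ ¬ P (p + 1) := by
    by_contra hcon
    push Not at hcon
    have h1 : ∀ p, P p := by
      intro p
      induction p with
      | zero => exact hP0
      | succ p ih => exact hcon p ih
    have := hPle _ (h1 ((s + 1) / (r + 1 - ℓ) + 1))
    omega
  have hple := hPle p hPp
  obtain ⟨x, hx, hsep, hbad⟩ := hPp
  refine ⟨Finset.univ.biUnion fun l => Finset.univ.image (x l).b, ?_, fun y hy hyF => ?_⟩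
  · refine Finset.card_biUnion_le.trans ?_
    refine (Finset.sum_le_card_nsmul _ _ M fun l _ => (hx l).different).trans ?_
    rw [Finset.card_univ, Fintype.card_fin, smul_eq_mul, mul_comm]
    exact Nat.mul_le_mul_left _ hple
  · by_contra hybad
    apply hPp1
    refine ⟨Fin.cons y x, fun l => ?_, fun l l' hll i j => ?_, fun l => ?_⟩
    · refine Fin.cases ?_ (fun l => ?_) l
      · exact hy
      · exact hx l
    · have hin : ∀ l j, (x l).b j ∈ Finset.univ.biUnion fun l => Finset.univ.image (x l).b := fun l j =>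
        Finset.mem_biUnion.2 ⟨l, Finset.mem_univ _, Finset.mem_image_of_mem _ (Finset.mem_univ _)⟩
      rcases Fin.eq_zero_or_eq_succ l with rfl | ⟨l, rfl⟩ <;> rcases Fin.eq_zero_or_eq_succ l' with rfl | ⟨l', rfl⟩
      · exact absurd rfl hll
      · rw [Fin.cons_zero, Fin.cons_succ]
        exact hyF i _ (hin l' j)
      · rw [Fin.cons_zero, Fin.cons_succ]
        exact far_symm (hyF j _ (hin l i))
      · rw [Fin.cons_succ, Fin.cons_succ]
        exact hsep l l' (fun h1 => hll (by rw [h1])) i j
    · refine Fin.cases ?_ (fun l => ?_) l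
      · exact hybad
      · exact hbad l

/-- **The theorem.** Part 1: the sum of the defects of separated tuples of fibres is at most `s + 1` (up to `ℓ` for each tuple).
Part 2: the number of exceptional denominators with defects larger than `r`, in short windows. Part 3: the number of all
denominators with defects larger than `ℓ`. -/
theorem result (m n N M q s ℓ t u e δ : ℕ) :
    (∃ E : ℕ, ∀ (β : Fin s → ℂ) (H : ℝ) (h w b₀ : ℕ), 1 ≤ H → (2 * H * ((h : ℝ) + w + 2)) ^ E ≤ (b₀ : ℝ) →
    (∀ (L : ℕ) (x : Fin L → Fibres m n N ℓ t u), (∀ l, (x l).Valid q M e β H h w b₀) →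
      (∀ l l', l ≠ l' → Separated H h (x l) (x l')) →
      ∃ ρ : Fin L → ℕ, ∑ l, ρ l ≤ s + 1 ∧ ∀ l, (x l).DefectAtMost e δ (ρ l + ℓ)) ∧
    ∀ r : ℕ, ℓ ≤ r → ∃ 𝓔 : Finset ℕ, 𝓔.card ≤ M * ((s + 1) / (r + 1 - ℓ)) ∧
      ∀ x : Fibres m n N ℓ t u, x.Valid q M e β H h w b₀ → (∀ j, ∀ c ∈ 𝓔, Far m H h (x.b j) c) →
      x.DefectAtMost e δ r) ∧
    ∃ k : ℕ, 0 < k ∧ ∀ (β : Fin s → ℂ) (H : ℝ) (h : ℕ), 1 ≤ H → ∃ C : ℝ, ∀ B : ℕ, 0 < B →
      ((exceptional m n N ℓ t u q e δ β H h B).ncard : ℝ) ^ k ≤ C * (B : ℝ) ^ (k - 1) := by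
  classical
  obtain ⟨E, hE⟩ := parts m n N 1 q s ℓ t u e δ
  refine ⟨parts m n N M q s ℓ t u e δ, 2 * (E + 1), by omega, fun β H h hH => ?_⟩
  exact Pool.Agent.H885.count_windows (fun B => exceptional m n N ℓ t u q e δ β H h B) hH h m (s + 1) E
    (fun B b hb => hb.1) fun w b₀ hbig => by
      obtain ⟨-, h0⟩ := hE β H h w b₀ hH hbig
      obtain ⟨𝓔, h1, h2⟩ := h0 ℓ le_rfl
      have h3 : ℓ + 1 - ℓ = 1 := by omega
      rw [h3, Nat.div_one, one_mul] at h1
      refine ⟨𝓔, h1, fun B b hb hb1 hb2 => ?_⟩
      obtain ⟨x, hx1, hx2, hx3⟩ := hb.2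
      by_contra hcon
      push Not at hcon
      refine hx3 (h2 x ⟨fun j => ?_, hx1.far, hx1.different, hx1.numerators, hx1.family, hx1.pole, hx1.central,
        hx1.invertible, hx1.symmetries, hx1.stable, hx1.field, hx1.independent, hx1.known, hx1.tangent, hx1.torus⟩
        fun j c hc => ?_)
      · rw [hx2 j]
        exact ⟨hb1, hb2⟩
      · rw [hx2 j]
        exact hcon c hc

end Pool.Agent.Results.MP_12eca1_ag.DefectsNearDegenerate
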