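import Pool.Agent.H445.MX.Fin

/-!
# MP_12eca1_ag: the exact dimension of the set of the motives of elliptic curves and exponentials which violate the André-Grothendieck conjecture

For points `τ = (τ_1, …, τ_n)` of the upper half-plane and complex numbers `w = (w_1, …, w_s)` let
`E_i` be the elliptic curve `y² = 4 x³ - g₂(τ_i) x - g₃(τ_i)` with the lattice `ℤ + ℤ τ_i` and let `M(τ,w)` be
the motive `H¹(𝔾_m) ⊕ H¹(E_1) ⊕ ⋯ ⊕ H¹(E_n) ⊕ H¹(𝔾_m, {1, e^{w_1}, …, e^{w_s}})` over the field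
`k = ℚ(g₂(τ_i), g₃(τ_i), e^{w_k})`. The field `k(periods of M)` is generated by the numbers `2πi`,
`τ_i, η₁(τ_i), g₂(τ_i), g₃(τ_i)` and `w_k, e^{w_k}`, where `η₁(τ)` is the quasi-period of the period `1` (the
other quasi-period is `τ η₁(τ) - 2πi`), and the dimension of the motivic Galois group is
`1 + 3 a + b + c`, where `a` and `b` are the numbers of the isogeny classes of the `E_i` without and
with complex multiplication and `c` is the dimension of the `ℚ`-span of the `w_k` modulo `2πi ℚ`.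

Let `F(n,s,m)` be the set of all `(τ,w)` in `ℍ^n × ℂ^s` for which the transcendence degree is at most
`1 + 3 a + b + c - m`. The conjecture says that `F(n,s,m)` is empty for `m ≥ 1`. (For another model of `E_i`
over any subfield of `ℂ` the field `k(periods)` contains the field above, so these are the essential cases.) There
are no conditions on the points; several curves may be isogenous, and some may have
complex multiplication. We prove:

* The Hausdorff dimension of `F(n,s,m)` is exactly `2 d`, where `d` is the largest number `i + k` for which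
  `F(n - i, s - k, m + i + k)` is not empty (`0` if `F(n,s,m)` is empty), and then `m + 4 i + 2 k ≤ 3 n + s`.
* `F(n,s,m)` is countable if and only if `F(n - 1, s, m + 1)` (for `n ≥ 1`) and `F(n, s - 1, m + 1)` (for
  `s ≥ 1`) are empty.
* For every `n`, `m`, `d`: `F(n, s, m + d + 1)` is empty for all `s` if and only if for all `s` the dimension of
  `F(n,s,m)` is at most `2 d`; the same with the roles of `n` and `s` exchanged, and for all `n` and `s`. For
  `m = d = 0`: the inequality of the conjecture holds for all these motives if and only if for all `n` and `s`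
  there are only countably many `(τ,w)` with `trdeg ≤ dim G_mot`.

## The proof (in `Pool.Agent.H445.MJ`, `Pool.Agent.H445.MX`)

The main tool is a proof of a mixed Ax-Schanuel theorem for `j` and its derivatives (or the periods
and quasi-periods) and the exponential function in a pointwise form, for a space of derivations of `ℂ`
(`rank_tau`, `chainX`). The points over which a countable field, closed under the functions and their
differential equations, has many compatible derivations are controlled by the rank; the dimension of the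
set of the other points is computed by the implicit function theorem (`dimX`). The set `F(n,s,m)` is a
countable union of images of sets of pairwise non-isogenous curves and independent exponents (`dimVX`).
-/

set_option autoImplicit false

open Set

noncomputable section

namespace Pool.Agent.Results.MP_12eca1_ag.DimensionFormula

open Pool.Agent.H445.MX (VX LevV BaseX dimVX countableVX lowerV LevV_bdd VX_extend VX_mono VX_bound VX_nonempty
  append_mem_VX BadX cntC oC)
open Pool.Agent.H445.MJ (oN trdeg_iff CMp LC_eq)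
open Pool.Agent.H445 (dimQ)

/-- The lattice `ℤ + ℤ τ`. -/
def lattice (τ : ℂ) (h : 0 < τ.im) : PeriodPair where
  ω₁ := 1
  ω₂ := τ
  indep := (Pool.Agent.Y685.LL ⟨τ, h⟩).indep

/-- The Weierstrass zeta function (the summand of `l = 0` is `1 / z`). -/
def zeta (L : PeriodPair) (z : ℂ) : ℂ := ∑' l : L.lattice, (1 / (z - l) + 1 / l + z / l ^ 2)

/-- The invariant `g₂` of the lattice `ℤ + ℤ τ`. -/
def g₂ (τ : ℂ) : ℂ := if h : 0 < τ.im then (lattice τ h).g₂ else 0

/-- The invariant `g₃` of the lattice `ℤ + ℤ τ`. -/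
def g₃ (τ : ℂ) : ℂ := if h : 0 < τ.im then (lattice τ h).g₃ else 0

/-- The quasi-period `ζ(z + 1) - ζ(z)` of the lattice `ℤ + ℤ τ` (it does not depend on `z`; we take `z = 1/2`). -/
def η₁ (τ : ℂ) : ℂ := if h : 0 < τ.im then zeta (lattice τ h) (1 / 2 + 1) - zeta (lattice τ h) (1 / 2) else 0

/-- The generators of the field `k(periods of M(τ,w))`. -/
def numbers {n s : ℕ} (τ : Fin n → ℂ) (w : Fin s → ℂ) : Set ℂ :=
  {2 * (Real.pi : ℂ) * Complex.I} ∪
    ({x | ∃ i, x = τ i ∨ x = η₁ (τ i) ∨ x = g₂ (τ i) ∨ x = g₃ (τ i)} ∪ {x | ∃ k, x = w k ∨ x = Complex.exp (w k)})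

/-- The curve `E_τ` has complex multiplication: `τ` is quadratic. -/
def HasCM (τ : ℂ) : Prop :=
  ∃ a b c : ℤ, (a ≠ 0 ∨ b ≠ 0 ∨ c ≠ 0) ∧ (a : ℂ) * τ ^ 2 + (b : ℂ) * τ + (c : ℂ) = 0

/-- The points `σ` of the upper half-plane for which `E_σ` is isogenous to `E_τ`. -/
def isogenyClass (τ : ℂ) : Set ℂ :=
  {σ | 0 < σ.im ∧ ∃ a b c d : ℚ, 0 < a * d - b * c ∧ σ * ((c : ℂ) * τ + (d : ℂ)) = (a : ℂ) * τ + (b : ℂ)}

/-- The number of the isogeny classes of the curves without complex multiplication. -/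
def a {n : ℕ} (τ : Fin n → ℂ) : ℕ := {O | ∃ i, ¬ HasCM (τ i) ∧ O = isogenyClass (τ i)}.ncard

/-- The number of the isogeny classes of the curves with complex multiplication. -/
def b {n : ℕ} (τ : Fin n → ℂ) : ℕ := {O | ∃ i, HasCM (τ i) ∧ O = isogenyClass (τ i)}.ncard

/-- The dimension of the `ℚ`-span of the numbers `w_k` modulo `2πi ℚ`. -/
def c {s : ℕ} (w : Fin s → ℂ) : ℕ :=
  Module.finrank ℚ (Submodule.span ℚ (Set.range fun k =>
    (Submodule.span ℚ {2 * (Real.pi : ℂ) * Complex.I}).mkQ (w k)))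

/-- All `(τ,w)` in `ℍ^n × ℂ^s` with `trdeg k(periods of M(τ,w)) + m ≤ 1 + 3 a + b + c = dim G_mot(M(τ,w))`. -/
def Fails (n s m : ℕ) : Set ((Fin n → ℂ) × (Fin s → ℂ)) :=
  {p | (∀ i, 0 < (p.1 i).im) ∧ Algebra.trdeg ℚ (IntermediateField.adjoin ℚ (numbers p.1 p.2)) + m ≤
    ((1 + 3 * a p.1 + b p.1 + c p.2 : ℕ) : Cardinal)}

/-- The largest `i + k` such that `F(n - i, s - k, m + i + k)` is not empty (zero if there is none). -/
def level (n s m : ℕ) : ℕ :=
  sSup {d | ∃ i k, i ≤ n ∧ k ≤ s ∧ i + k = d ∧ (Fails (n - i) (s - k) (m + d)).Nonempty}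

/-- the base -/
abbrev P0 : Set ℂ := {2 * (Real.pi : ℂ) * Complex.I}

/-- the periods -/
abbrev B0 : Submodule ℚ ℂ := Submodule.span ℚ {2 * (Real.pi : ℂ) * Complex.I}

theorem base : BaseX P0 B0 :=
  ⟨Set.finite_singleton _, FiniteDimensional.span_of_finite ℚ (Set.finite_singleton _)⟩

theorem lat_eq {τ : ℂ} (h : 0 < τ.im) : Pool.Agent.Y685.LC τ = lattice τ h := LC_eq h rfl rfl

theorem g₂_eq {τ : ℂ} (h : 0 < τ.im) : g₂ τ = (Pool.Agent.Y685.LC τ).g₂ := by
  rw [g₂, dif_pos h, lat_eq h]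

theorem g₃_eq {τ : ℂ} (h : 0 < τ.im) : g₃ τ = (Pool.Agent.Y685.LC τ).g₃ := by
  rw [g₃, dif_pos h, lat_eq h]

theorem η₁_eq {τ : ℂ} (h : 0 < τ.im) : η₁ τ = Pool.Agent.Y685.h1 τ := by
  rw [η₁, dif_pos h, Pool.Agent.Y685.h1, lat_eq h]
  rfl

theorem numbers_eq {n s : ℕ} {τ : Fin n → ℂ} (hτ : ∀ i, 0 < (τ i).im) (w : Fin s → ℂ) :
    numbers τ w = P0 ∪ (Pool.Agent.H445.MJ.NS (range τ) ∪ Pool.Agent.Y776.ET w) := by
  unfold numbers
  congr 1
  congr 1
  · ext x
    simp only [Pool.Agent.H445.MJ.NS, Pool.Agent.H445.MJ.N1, mem_ofPred_eq, mem_iUnion, mem_range, exists_prop,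
      exists_exists_eq_and, mem_insert_iff, mem_singleton_iff]
    exact exists_congr fun i => by rw [g₂_eq (hτ i), g₃_eq (hτ i), η₁_eq (hτ i)]
  · ext x
    constructor
    · rintro ⟨k, rfl | rfl⟩
      · exact Or.inl ⟨k, rfl⟩
      · exact Or.inr ⟨k, rfl⟩
    · rintro (⟨k, rfl⟩ | ⟨k, rfl⟩)
      · exact ⟨k, Or.inl rfl⟩
      · exact ⟨k, Or.inr rfl⟩

theorem a_eq {n : ℕ} (z : Fin n → ℂ) : a z = (oN (range z)).ncard := by
  unfold a oN
  congr 1
  ext O
  constructor
  · rintro ⟨i, h, rfl⟩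
    exact ⟨z i, ⟨⟨i, rfl⟩, h⟩, rfl⟩
  · rintro ⟨_, ⟨⟨i, rfl⟩, h⟩, rfl⟩
    exact ⟨i, h, rfl⟩

theorem b_eq {n : ℕ} (z : Fin n → ℂ) : b z = (oC (range z)).ncard := by
  unfold b oC
  congr 1
  ext O
  constructor
  · rintro ⟨i, h, rfl⟩
    exact ⟨z i, ⟨⟨i, rfl⟩, h⟩, rfl⟩
  · rintro ⟨_, ⟨⟨i, rfl⟩, h⟩, rfl⟩
    exact ⟨i, h, rfl⟩

theorem mem_Fails {n s m : ℕ} {z : Fin n → ℂ} {w : Fin s → ℂ} :
    (z, w) ∈ Fails n s m ↔ BadX P0 B0 1 m (range z) w := by
  have key : 1 + 3 * a z + b z + c w = cntC (range z) + dimQ B0 w + 1 := by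
    rw [cntC, ← a_eq, ← b_eq]
    change _ = 3 * a z + b z + c w + 1
    omega
  constructor
  · rintro ⟨h1, h2⟩
    refine ⟨finite_range z, ?_, ?_⟩
    · rintro _ ⟨i, rfl⟩
      exact h1 i
    · have h3 := (trdeg_iff m (1 + 3 * a z + b z + c w)).1 h2
      rw [key] at h3
      rwa [numbers_eq h1] at h3
  · rintro ⟨-, h1, h2⟩
    have h1' : ∀ i, 0 < (z i).im := fun i => h1 _ ⟨i, rfl⟩
    refine ⟨h1', ?_⟩
    refine (trdeg_iff m (1 + 3 * a z + b z + c w)).2 ?_
    rw [key, numbers_eq h1']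
    exact h2

theorem image_Fails (n s m : ℕ) : (Fin.appendIsometry (α := ℂ) n s) '' Fails n s m = VX P0 B0 1 n s m := by
  ext v
  constructor
  · rintro ⟨⟨z, w⟩, h, rfl⟩
    exact append_mem_VX.2 (mem_Fails.1 h)
  · intro h
    refine ⟨(fun i => v (Fin.castAdd s i), fun i => v (Fin.natAdd n i)), mem_Fails.2 h, ?_⟩
    exact Pool.Agent.H445.append_eta v

theorem dimH_Fails (n s m : ℕ) : dimH (Fails n s m) = dimH (VX P0 B0 1 n s m) := by
  rw [← image_Fails, IsometryEquiv.dimH_image]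

theorem countable_Fails (n s m : ℕ) : (Fails n s m).Countable ↔ (VX P0 B0 1 n s m).Countable := by
  rw [← image_Fails]
  exact ⟨fun h => h.image _,
    fun h => Set.countable_of_injective_of_countable_image (Fin.appendIsometry (α := ℂ) n s).injective.injOn h⟩

theorem nonempty_Fails (n s m : ℕ) : (Fails n s m).Nonempty ↔ (VX P0 B0 1 n s m).Nonempty := by
  rw [← image_Fails, image_nonempty]

theorem Lev_eq (n s m : ℕ) : LevV P0 B0 1 n s m =
    {d | ∃ i k, i ≤ n ∧ k ≤ s ∧ i + k = d ∧ (Fails (n - i) (s - k) (m + d)).Nonempty} := by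
  ext d
  simp only [LevV, mem_ofPred_eq, nonempty_Fails]

theorem dim_eq (n s m : ℕ) : dimH (Fails n s m) = (2 * level n s m : ℕ) := by
  rw [dimH_Fails, level, ← Lev_eq]
  exact dimVX base

theorem bound {n s m : ℕ} (h : (Fails n s m).Nonempty) : m ≤ 3 * n + s := by
  rw [nonempty_Fails] at h
  exact VX_bound (by exact rfl) h

theorem mono {n s m m' : ℕ} (hm : m ≤ m') (h : (Fails n s m').Nonempty) : (Fails n s m).Nonempty := by
  rw [nonempty_Fails] at h ⊢
  exact h.mono (VX_mono hm)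

theorem extend {n s n' s' m : ℕ} (hn : n ≤ n') (hs : s ≤ s') (h : (Fails n s m).Nonempty) :
    (Fails n' s' m).Nonempty := by
  rw [nonempty_Fails] at h ⊢
  exact VX_extend base hn hs h

theorem lower {n s m i k : ℕ} (hi : i ≤ n) (hk : k ≤ s) (h : (Fails (n - i) (s - k) (m + (i + k))).Nonempty) :
    ((2 * (i + k) : ℕ) : ENNReal) ≤ dimH (Fails n s m) := by
  rw [dimH_Fails]
  apply lowerV base
  rw [Lev_eq]
  exact ⟨i, k, hi, hk, rfl, h⟩

theorem level_spec (n s m : ℕ) : level n s m = 0 ∨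
    ∃ i k, i ≤ n ∧ k ≤ s ∧ i + k = level n s m ∧ (Fails (n - i) (s - k) (m + (i + k))).Nonempty := by
  rcases Set.eq_empty_or_nonempty
    {d | ∃ i k, i ≤ n ∧ k ≤ s ∧ i + k = d ∧ (Fails (n - i) (s - k) (m + d)).Nonempty} with h | h
  · left
    rw [level, h, csSup_empty]
    rfl
  · right
    have h1 := Nat.sSup_mem h (by rw [← Lev_eq]; exact LevV_bdd)
    obtain ⟨i, k, h2, h3, h4, h5⟩ := h1
    refine ⟨i, k, h2, h3, h4, ?_⟩
    rw [h4]
    exact h5

theorem countable_iff (n s m : ℕ) : (Fails n s m).Countable ↔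
    (1 ≤ n → Fails (n - 1) s (m + 1) = ∅) ∧ (1 ≤ s → Fails n (s - 1) (m + 1) = ∅) := by
  rw [countable_Fails, countableVX base, Lev_eq]
  constructor
  · intro h
    constructor
    · intro hn
      by_contra hne
      exact h ⟨1, 0, hn, Nat.zero_le _, rfl, nonempty_iff_ne_empty.2 hne⟩
    · intro hs
      by_contra hne
      exact h ⟨0, 1, Nat.zero_le _, hs, rfl, nonempty_iff_ne_empty.2 hne⟩
  · rintro ⟨h1, h2⟩ ⟨i, k, hi, hk, hik, h⟩
    have h0 : i = 1 ∧ k = 0 ∨ i = 0 ∧ k = 1 := by omega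
    rcases h0 with ⟨rfl, rfl⟩ | ⟨rfl, rfl⟩
    · have h3 := h1 hi
      rw [Nat.sub_zero, h3] at h
      exact not_nonempty_empty h
    · have h3 := h2 hk
      rw [Nat.sub_zero, h3] at h
      exact not_nonempty_empty h

theorem dim_le {n s m d : ℕ} (h : Fails n s (m + d + 1) = ∅) : dimH (Fails n s m) ≤ (2 * d : ℕ) := by
  rw [dim_eq]
  have h1 : level n s m ≤ d := by
    rcases level_spec n s m with h0 | ⟨i, k, hi, hk, hik, hne⟩
    · omega
    · by_contra hcon
      have h2 := extend (n' := n) (s' := s) (Nat.sub_le _ _) (Nat.sub_le _ _) hne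
      have h3 := mono (m := m + d + 1) (by omega) h2
      rw [h] at h3
      exact not_nonempty_empty h3
  exact_mod_cast Nat.mul_le_mul_left 2 h1

theorem empty_s {n s m d : ℕ} (h : dimH (Fails n (s + (d + 1)) m) ≤ (2 * d : ℕ)) : Fails n s (m + d + 1) = ∅ := by
  by_contra hne
  have h1 := lower (n := n) (s := s + (d + 1)) (m := m) (i := 0) (k := d + 1) (Nat.zero_le _) (by omega) (by
    rw [Nat.add_sub_cancel, Nat.sub_zero, zero_add, ← add_assoc]
    exact nonempty_iff_ne_empty.2 hne)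
  have h2 := h1.trans h
  have h3 : 2 * (0 + (d + 1)) ≤ 2 * d := by exact_mod_cast h2
  omega

theorem empty_n {n s m d : ℕ} (h : dimH (Fails (n + (d + 1)) s m) ≤ (2 * d : ℕ)) : Fails n s (m + d + 1) = ∅ := by
  by_contra hne
  have h1 := lower (n := n + (d + 1)) (s := s) (m := m) (i := d + 1) (k := 0) (by omega) (Nat.zero_le _) (by
    rw [Nat.add_sub_cancel, Nat.sub_zero, add_zero, ← add_assoc]
    exact nonempty_iff_ne_empty.2 hne)
  have h2 := h1.trans h
  have h3 : 2 * (d + 1 + 0) ≤ 2 * d := by exact_mod_cast h2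
  omega

theorem countable_of {n s m : ℕ} (h : Fails n s (m + 1) = ∅) : (Fails n s m).Countable := by
  rw [countable_iff]
  constructor
  · intro hn
    by_contra hne
    have h1 := extend (n' := n) (s' := s) (Nat.sub_le n 1) le_rfl (nonempty_iff_ne_empty.2 hne)
    rw [h] at h1
    exact not_nonempty_empty h1
  · intro hn
    by_contra hne
    have h1 := extend (n' := n) (s' := s) le_rfl (Nat.sub_le s 1) (nonempty_iff_ne_empty.2 hne)
    rw [h] at h1
    exact not_nonempty_empty h1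

theorem result :
    -- the dimension
    (∀ n s m : ℕ, dimH (Fails n s m) = (2 * level n s m : ℕ)) ∧
    (∀ n s m i k : ℕ, i ≤ n → k ≤ s → (Fails (n - i) (s - k) (m + (i + k))).Nonempty →
      m + 4 * i + 2 * k ≤ 3 * n + s) ∧
    -- countability
    (∀ n s m : ℕ, (Fails n s m).Countable ↔
      (1 ≤ n → Fails (n - 1) s (m + 1) = ∅) ∧ (1 ≤ s → Fails n (s - 1) (m + 1) = ∅)) ∧
    (∀ n s m : ℕ, 3 * n + s ≤ m + 1 → (Fails n s m).Countable) ∧
    -- the conjecture with bounded error, for a fixed number of curves or exponents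
    (∀ n m d : ℕ, (∀ s, Fails n s (m + d + 1) = ∅) ↔ ∀ s, dimH (Fails n s m) ≤ (2 * d : ℕ)) ∧
    (∀ s m d : ℕ, (∀ n, Fails n s (m + d + 1) = ∅) ↔ ∀ n, dimH (Fails n s m) ≤ (2 * d : ℕ)) ∧
    -- the conjecture
    (∀ n m : ℕ, (∀ s, Fails n s (m + 1) = ∅) ↔ ∀ s, (Fails n s m).Countable) ∧
    (∀ s m : ℕ, (∀ n, Fails n s (m + 1) = ∅) ↔ ∀ n, (Fails n s m).Countable) := by
  refine ⟨dim_eq, fun n s m i k hi hk h => ?_, countable_iff, fun n s m h => ?_,
    fun n m d => ⟨fun h s => dim_le (h s), fun h s => empty_s (h _)⟩,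
    fun s m d => ⟨fun h n => dim_le (h n), fun h n => empty_n (h _)⟩,
    fun n m => ⟨fun h s => countable_of (h s), fun h s => ?_⟩,
    fun s m => ⟨fun h n => countable_of (h n), fun h n => ?_⟩⟩
  · have := bound h
    omega
  · rw [countable_iff]
    constructor
    · intro hn
      by_contra hne
      have := bound (nonempty_iff_ne_empty.2 hne)
      omega
    · intro hn
      by_contra hne
      have := bound (nonempty_iff_ne_empty.2 hne)
      omega
  · exact ((countable_iff n (s + 1) m).1 (h (s + 1))).2 (by omega)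
  · exact ((countable_iff (n + 1) s m).1 (h (n + 1))).1 (by omega)

end Pool.Agent.Results.MP_12eca1_ag.DimensionFormula
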