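import Pool.Agent.H936.W.Om2
import Pool.Agent.H936.G.Spc3
import Pool.Agent.H936.G.CuspU

/-!
# 1-motives over products of fibres of a family of abelian varieties: the de Rham-Betti torsor is motivic

**The 1-motives.** Let `M = [ℤ^R → G]` be a 1-motive, where `G` is an extension of an abelian variety `A` by `𝔾ₘ^J`, given by
points `Q_j` (`j ∈ J`) of `A` over a number field with logarithms `q_j`, and points `P̃_r` of `G` (`r ∈ R`) over points `P_r` of
`A` with logarithms `u_r`. Every 1-motive over a number field has this form over a finite extension. `A` is given by theta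
functions (`AbVar`, `Pool.Agent.Y102.AVDefs`). The periods of `M` are the entries of `periodMatrix` with the rows

* `(λ_{ik} | η_{ik} | ∑_k (f_{jk} λ_{ik} - η_{ik} q_{jk}) | 0)` for a suitable lift to `G` of the cycle `i` of `A`;
* `(0 | 0 | 2πi δ_{jj'} | 0)` for the circles of the torus;
* `(u_{rk} | e_{rk} | L_{rj} | δ_{rr'})` for a path from `0` to `P̃_r` in `G`,

and the columns: the differentials of the first kind `dz_k`, of the second kind `d (∂_k log θ₀)`, of the third kind
`d log (θ₀(z - q_j) / θ₀(z)) + ∑_k f_{jk} dz_k`, and the differentials of degree zero. The points can be arbitrary; if they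
satisfy relations, the paths and the differentials are normalised in such a way that the vectors `(u_r, e_r)`, `(q_j, f_j)`
satisfy the same relations. If `M` is defined over the number field `K`, a basis over `K` of the de Rham realisation which
respects the weights is given by a matrix `b` of algebraic numbers (`IsBasis`), and `c = periodMatrix * b` is the period
matrix of `M` for this basis, a point of the torsor `Iso (M_dR, M_B)` over `K`.

**The abelian part.** Let `A_x` be a polarised family of abelian varieties of dimension `g ≥ 2` over an open part of the line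
over `ℚ`, with Zariski dense monodromy in the symplectic group, and `P(x) = C exp (M log x) Z(x)` its period matrix near the
rational point `x = 0`, where `Z` is a matrix of G-functions over `ℚ`, `M` is nilpotent and `C` is the matrix of the periods
of the fibre `A_0` or of the limit at a point of degeneration. Let `t_1, …, t_N` be natural numbers. We consider **all**
1-motives `M` over number fields `K` with `[K : ℚ] ≤ D` for which `A` is isogenous over `K` to a product of fibres
`A_{1 / t_j}`, with arbitrary multiplicities (`IsProduct`): extensions and points are arbitrary, and there is no bound for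
the dimension of `A` and the ranks of `ℤ^R` and `𝔾ₘ^J`.

**The Lie algebra of the motivic Galois group.** The motivic Galois group of a 1-motive is its Mumford-Tate group
(Brylinski, André). Its Lie algebra consists of the block matrices `(X, z, 0; 0, μ, 0; Y, w, 0)` such that

* the transpose of `X` is in `μ / 2 + 𝔤 ⊗ ℂ`, where `𝔤` is the Lie algebra of the endomorphisms of `H_1(A, ℚ)` which annihilate
  all classes in `H^1(A) ^ {⊗ 2m} (m)` that are Hodge classes and de Rham-Betti classes (by the theorem of Deligne this is the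
  Lie algebra of the Hodge group);
* `z` consists of the columns `γ ↦ ω(Z_j, γ)` for the Riemann form `ω`, and `(Y, Z)` satisfies all relations
  `∑ E_r P_r + ∑ E'_j Q_j = 0`, `E_r, E'_j ∈ End A`;
* `∑ χ_{rj} w_{rj} = n μ` for all central `χ` with `∑ χ_{rj} ℓ_{rj} = 2πi n`, `n ∈ ℤ`. Here `ℓ` is the part of weight `-2` of the
  logarithm of the period matrix, and an integral matrix `χ` is central if `∑ χ_{rj} c_{rj} = 0` for all commutators `c`. For
  central `χ` the number `exp (∑ χ_{rj} ℓ_{rj})` is algebraic (the value of a section of a trivial line bundle at the point).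

This is `motivicLie` for the set of pairs `(χ, n)` as above.

**Theorem.** Let `N` and `D` be given. There are `G`, which depends only on the family, and `E`, such that the following is
true for all `M`, `K` as above and all `K`-subtorsors `S` of `Iso (M_dR, M_B)` which contain `c` and whose group (the matrices
`x y⁻¹`, `x, y ∈ S`) is defined over `ℚ` (for example the smallest one, the de Rham-Betti torsor of `M` over `K`): `S` is
stable under `exp W` for all `W` in the Lie algebra of the motivic Galois group of `M`. So `S` contains the torsor of motivic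
periods of `M` over `ℚ̄`: the de Rham-Betti group of `M` has the dimension `dim G_mot(M)` which the conjecture predicts for the
transcendence degree, and all de Rham-Betti classes of all motives over `K` in the tensor category generated by `M` are
motivic over `ℚ̄`. The tuples `(t_j)` are

1. for an **arbitrary centre** (arbitrary `C`, `M`): all tuples of distinct integers `≠ t₀` in a window `[a, b]` with
   `(b - a + 2) ^ E ≤ a`, in a residue class modulo `G`, where `t₀` is one exceptional integer for each window and class;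
2. for a **special centre**: all tuples of distinct integers, congruent modulo `G`, with `(t_i - t_j + 2) ^ E ≤ t_j` (for
   `N = 1` these are all `t ≥ 2 ^ E`). The centre is special if `A_0` is an abelian variety with `End A_0 ≠ ℤ`, or with a
   de Rham-Betti group which does not contain the symplectic group, or if it is a limit of toric rank at least three.

Until now the theorems on 1-motives in this repository (`OneMotivesTypeA1`, `RealMultOneMotives`, `KugaSatakeOneMotives`,
`AllOneMotives` and others) need special Hodge groups of the abelian part, or assume the conjecture for the abelian part.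
Here `A` has the full symplectic group (or a product of symplectic groups), in arbitrary dimension, in particular `A` can be
simple with `End A = ℤ`, and the theorems about families of pure motives in this repository (also my `NearSpecialFibres`,
`OneExceptionPerWindow` and `NearCusps`) do not contain non-trivial extensions.

**Proof.** (`Pool/Agent/H936`.) The problem is that the conjecture for the pure part is known only for torsors over number
fields of bounded degree, because the theorem on values of G-functions of Bombieri and Chudnovsky loses the degree; the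
torsors over `ℚ̄` which occur in the theory of 1-motives (`X306`) are not defined over `K`, and the projection of `S` to the
pure part need not be closed. So we work with the Lie algebra of the group of `S` and with the subspace `V` (`gr`) of the pure
parts of those elements which respect the decomposition of the pure part into fibres. `V` is closed under commutators, has a rational structure, contains the logarithmic derivatives of the period matrices of
the fibres for all `K`-linear derivations, has no elements with vanishing trace form (by the theorem of Schneider and Lang in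
the form of Bost and the positivity of the polarisations, `gr_lev`), and satisfies the conditions on `f(c)` (`Sp`). The
theorems `finV_exc` and `finV_good` say that every such space `V` contains the symplectic algebras of all fibres. Their
proof is the proof of the theorems on pure motives (`G/OG`, `G/Lead`, `G/Fact`, `G/Cusp`, `G/Spc`), in which the torsors are
replaced by the spaces `V`: for each `X ∈ 𝔰𝔭` and each `j` there is a derivation of the ultraproduct `ℂ^*` over `ℚ^*` which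
moves only the fibre `j`, in the direction `X`, and `𝔰𝔭` is not the sum of the normalisers of two proper subspaces with
nondegenerate trace form (one exception), or of such a normaliser and of the algebra of a special centre. So all elements of
`𝔤 ⊗ ℂ` (which are in the product of the symplectic algebras, as they commute with the endomorphisms and with the
endomorphisms which are given by the polarisations of the factors, `PD.NA_form`) lift to the Lie algebra of the group of `S`;
the homotheties split the lifts (`split_of`), and then the theorem follows from the structure of the Lie algebra for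
1-motives (`mainLie`, `X306/AV`: the theorem of Schneider and Lang, Lang's theorem on algebraic points, the theorem of
Hermite and Lindemann).

Nothing is assumed about periods: `AbVar` is the description of an abelian variety over `ℚ̄` by theta functions
(`Pool/Agent/Y102/AVDefs.lean` explains why every abelian variety has it).
-/

set_option autoImplicit false

open PowerSeries Filter Matrix

noncomputable section

namespace Pool.Agent.Results.MP_12eca1_ag.OneMotivesOverFibres

open Pool.Agent.Y102 (AbVar riemannForm pd QBar)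
open Pool.Agent.W516.DR Pool.Agent.H204R3.GP

/-! ### G-functions -/

/-- an integer polynomial as a power series with rational coefficients -/
def toQ (P : Polynomial ℤ) : PowerSeries ℚ := ((P.map (Int.castRingHom ℚ) : Polynomial ℚ) : PowerSeries ℚ)

/-- the power series `P(u^e)` -/
def atPow (e : ℕ) (P : Polynomial ℤ) : PowerSeries ℂ :=
  ((Polynomial.expand ℂ e (P.map (Int.castRingHom ℂ)) : Polynomial ℂ) : PowerSeries ℂ)

/-- the matrices `G_s` over `ℤ[x]` with `T^s y^(s) = G_s y` for all solutions `y` of `T y' = A y` -/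
def iter {r : ℕ} (T : Polynomial ℤ) (A : Fin r → Fin r → Polynomial ℤ) : ℕ → Fin r → Fin r → Polynomial ℤ
  | 0 => fun i j => if i = j then 1 else 0
  | s + 1 => fun i j => T * Polynomial.derivative (iter T A s i j) + ∑ l, iter T A s i l * A l j -
      (s : Polynomial ℤ) * (Polynomial.derivative T * iter T A s i j)

/-- The system `T y' = A y` has a fundamental matrix of solutions of the form `u^(-M) ∑_n Φ_n(u) (log u)^n` with
`u^e = x` and convergent power series `Φ_n`: the point `0` is regular or a regular singularity with rational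
exponents. -/
def QuasiUnipotent {r : ℕ} (T : Polynomial ℤ) (A : Fin r → Fin r → Polynomial ℤ) : Prop :=
  ∃ (e M : ℕ) (K : ℝ) (Φ : Matrix (Fin r) (Fin r) (Polynomial (PowerSeries ℂ))), 1 ≤ e ∧ Φ.det ≠ 0 ∧
    (∀ i j n m, ‖coeff m ((Φ i j).coeff n)‖ ≤ K ^ (m + 1)) ∧
    ∀ i j n, atPow e T * (X * PowerSeries.derivative ℂ ((Φ i j).coeff n) +
        ((n : PowerSeries ℂ) + 1) * (Φ i j).coeff (n + 1) - (M : PowerSeries ℂ) * (Φ i j).coeff n) =
      (e : PowerSeries ℂ) * X ^ e * ∑ l, atPow e (A i l) * (Φ l j).coeff n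

/-- `h_1, ..., h_r` are G-functions with rational coefficients which solve the differential system `T y' = A y`, with
the conditions of Siegel and Galochkin, and `0` is a regular point or a regular singularity with rational exponents of
the system. -/
structure GFamily {r : ℕ} (T : Polynomial ℤ) (A : Fin r → Fin r → Polynomial ℤ) (h : Fin r → PowerSeries ℚ) : Prop where
  /-- the denominator is not zero -/
  T_ne : T ≠ 0
  /-- the differential equations -/
  ode : ∀ i, toQ T * PowerSeries.derivative ℚ (h i) = ∑ j, toQ (A i j) * h j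
  /-- the coefficients have geometric growth -/
  size : ∃ C : ℝ, ∀ i m, |((coeff m (h i) : ℚ) : ℝ)| ≤ C ^ (m + 1)
  /-- the common denominators of the coefficients have geometric growth -/
  den : ∃ C : ℝ, ∀ m : ℕ, ∃ d : ℕ, 0 < d ∧ (d : ℝ) ≤ C ^ (m + 1) ∧ ∀ i, ∀ j ≤ m, ∃ a : ℤ, (d : ℚ) * coeff j (h i) = a
  /-- Galochkin's condition: the common denominators of the matrices `G_s / s!` have geometric growth -/
  galochkin : ∃ C : ℝ, ∀ m : ℕ, ∃ d : ℕ, 0 < d ∧ (d : ℝ) ≤ C ^ (m + 1) ∧ ∀ s ≤ m, ∀ i j,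
    ∃ H : Polynomial ℤ, (d : Polynomial ℤ) * iter T A s i j = (s.factorial : Polynomial ℤ) * H
  /-- the local exponents at `0` are rational and the singularity is regular -/
  regular : QuasiUnipotent T A

section family
variable {n : ℕ}

/-- the entries of a matrix -/
def entries (Z : Matrix (Fin n) (Fin n) (PowerSeries ℚ)) : Fin (n * n) → PowerSeries ℚ := fun a =>
  Z (finProdFinEquiv.symm a).1 (finProdFinEquiv.symm a).2

/-- rational matrices as complex matrices -/
def toC (M : Matrix (Fin n) (Fin n) ℚ) : Matrix (Fin n) (Fin n) ℂ := M.map fun x : ℚ => (x : ℂ)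

/-- the matrix `Z(1 / t)` -/
def value (Z : Matrix (Fin n) (Fin n) (PowerSeries ℚ)) (t : ℕ) : Matrix (Fin n) (Fin n) ℂ :=
  Matrix.of fun i j => ((∑' k : ℕ, ((coeff k (Z i j) : ℚ) : ℝ) * (1 / (t : ℝ)) ^ k : ℝ) : ℂ)

/-- the matrix of the periods of the fibre at `x = 1 / t`: the value `C exp (M log x) Z(x)` -/
def period (C : Matrix (Fin n) (Fin n) ℂ) (M : Matrix (Fin n) (Fin n) ℚ)
    (Z : Matrix (Fin n) (Fin n) (PowerSeries ℚ)) (t : ℕ) : Matrix (Fin n) (Fin n) ℂ :=
  C * (NormedSpace.exp ((-((Real.log (t : ℝ) : ℝ) : ℂ)) • toC M) * value Z t)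

/-- The central fibre (or the limit object) respects the polarisations: `C` is invertible, `M` is nilpotent, and
`C Q Cᵀ = 2 π i H` for a matrix `Q` of algebraic numbers with `M Q + Q Mᵀ = 0`. -/
def Polarised (C : Matrix (Fin n) (Fin n) ℂ) (H M : Matrix (Fin n) (Fin n) ℚ) : Prop :=
  IsUnit C ∧ M ^ n = 0 ∧ ∃ Q : Matrix (Fin n) (Fin n) ℂ, (∀ i j, IsAlgebraic ℚ (Q i j)) ∧
    C * Q * Cᵀ = (2 * Real.pi * Complex.I : ℂ) • toC H ∧ toC M * Q + Q * (toC M)ᵀ = 0

/-- the matrix of power series with complex coefficients -/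
def overC (Z : Matrix (Fin n) (Fin n) (PowerSeries ℚ)) : Matrix (Fin n) (Fin n) (PowerSeries ℂ) :=
  Z.map (PowerSeries.map (algebraMap ℚ ℂ))

/-- `X` is an infinitesimal symmetry of `Z`: for all polynomial relations `R(x, Z(x)) = 0` over `ℂ[x]` the derivative of
`R(x, (1 + ε X) Z(x))` at `ε = 0` is zero. -/
def Symmetry (Z : Matrix (Fin n) (Fin n) (PowerSeries ℚ)) (X : Matrix (Fin n) (Fin n) ℂ) : Prop :=
  ∀ R : MvPolynomial (Fin n × Fin n) (Polynomial ℂ), MvPolynomial.aeval (fun b => overC Z b.1 b.2) R = 0 →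
    ∑ b, MvPolynomial.aeval (fun b => overC Z b.1 b.2) (MvPolynomial.pderiv b R) *
      (X.map (PowerSeries.C (R := ℂ)) * overC Z) b.1 b.2 = 0

/-- **Big monodromy**: the Lie algebra of the symplectic group of `H` (on the Betti side) consists of infinitesimal
symmetries of the matrix `P(x) = C Z(x)` of the periods. It is sufficient that the monodromy group of the family is
Zariski dense in the symplectic group of `H`. -/
def BigMonodromy (Z : Matrix (Fin n) (Fin n) (PowerSeries ℚ)) (C : Matrix (Fin n) (Fin n) ℂ)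
    (H : Matrix (Fin n) (Fin n) ℚ) : Prop :=
  ∀ X : Matrix (Fin n) (Fin n) ℂ, X * toC H + toC H * Xᵀ = 0 → Symmetry Z (C⁻¹ * X * C)

/-- **Toric rank at least three**: the limit object contains a sub-object of the form `κ ℚ(0)^3` on which the logarithm of
the monodromy is zero. There are vectors `v_i` of algebraic numbers (de Rham) and linearly independent rational vectors
`w_i` (Betti) with `C v_i = κ w_i` and `M v_i = 0`, and `w_0` is orthogonal to all `w_i` for the form of the polarisation. -/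
def ToricRankThree (C : Matrix (Fin n) (Fin n) ℂ) (H M : Matrix (Fin n) (Fin n) ℚ) : Prop :=
  ∃ (v : Fin 3 → Fin n → ℂ) (w : Fin 3 → Fin n → ℚ) (κ : ℂ), κ ≠ 0 ∧ (∀ i j, IsAlgebraic ℚ (v i j)) ∧
    (∀ i, C *ᵥ v i = κ • fun j => (w i j : ℂ)) ∧ (∀ i, toC M *ᵥ v i = 0) ∧ LinearIndependent ℚ w ∧
    ∀ i, w 0 ⬝ᵥ (H⁻¹ *ᵥ w i) = 0

/-- the numbers `t_j` are distinct and congruent modulo `G`, and `(t_i - t_j + 2)^E ≤ t_j` -/
def InWindow (G E : ℕ) {N : ℕ} (t : Fin N → ℕ) : Prop :=
  Function.Injective t ∧ (∀ i j, t i ≡ t j [MOD G]) ∧ ∀ i j, (t i - t j + 2) ^ E ≤ t j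

end family

/-! ### The fibres -/

section fibres
variable {g : ℕ} (A : AbVar g)

/-- The matrix of the periods of `A`: the integrals over the basis of the lattice of the invariant differentials `d z k`
and of the differentials of the second kind `d (∂ k (log θ 0))`, a basis of `H^1_dR (A / ℚ̄)`. -/
def periods : Matrix (Fin (2 * g)) (Fin g ⊕ Fin g) ℂ := Matrix.of fun a i => A.dR i (Pi.single a 1)

/-- `P` is the matrix of the comparison isomorphism `H^1_dR → H^1_B` of `A` for some basis `R` of the rational homology, in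
which the Riemann form has the matrix `H` up to a rational factor, and some basis of the de Rham cohomology over `ℚ̄`
(given by `T`). -/
def Presents (H : Matrix (Fin (2 * g)) (Fin (2 * g)) ℚ) (P : Matrix (Fin (2 * g)) (Fin (2 * g)) ℂ) : Prop :=
  ∃ (R : Matrix (Fin (2 * g)) (Fin (2 * g)) ℚ) (T : Matrix (Fin g ⊕ Fin g) (Fin (2 * g)) ℂ) (q : ℚ),
    IsUnit R ∧ IsUnit P ∧ (∀ i j, IsAlgebraic ℚ (T i j)) ∧ q ≠ 0 ∧ P = toC R * periods A * T ∧
    ∀ a b, ∑ c, ∑ d, (R a c : ℂ) * riemannForm A.lam A.η (A.lam c) (A.lam d) * (R b d : ℂ) = (q : ℂ) * (H a b : ℂ)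

/-- `X` is an endomorphism of `A` (up to isogeny), in terms of its action on `H_1(A, ℚ)`: it respects the de Rham
structure over `ℚ̄`. (By the theorem of Bost, which is proved in `Pool.Agent.Y102.AbVar.hodge_end`, these are the
elements of `End (A) ⊗ ℚ`.) -/
def IsEndo (X : Module.End ℚ A.H1) : Prop :=
  ∃ a : Fin g ⊕ Fin g → Fin g ⊕ Fin g → ℂ, (∀ i j, IsAlgebraic ℚ (a i j)) ∧
    ∀ i w, A.dR i (X w) = ∑ j, a i j * A.dR j w

/-- `End (A) ≠ ℤ` -/
def HasExtraEndo : Prop := ∃ X : Module.End ℚ A.H1, IsEndo A X ∧ ∀ c : ℚ, X ≠ c • (1 : Module.End ℚ A.H1)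

end fibres

/-! ### Torsors -/

/-- `S` is (the set of complex points of) a `K`-subtorsor of `GL_B = Iso (M_dR, M_B)`: it is closed under `x y⁻¹ z`, and
it is defined in `GL_B` by polynomials with coefficients in `K`. -/
def IsSubtorsor (K : Subfield ℂ) {B : Type} [Fintype B] [DecidableEq B] (S : Set (Matrix B B ℂ)) : Prop :=
  (∀ x ∈ S, ∀ y ∈ S, ∀ z ∈ S, x * y⁻¹ * z ∈ S) ∧ ∃ I : Set (MvPolynomial (B × B) K), ∀ x : Matrix B B ℂ, x ∈ S ↔
    IsUnit x ∧ ∀ p ∈ I, MvPolynomial.eval (fun b => x b.1 b.2) (MvPolynomial.map (algebraMap K ℂ) p) = 0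

/-- The group of the torsor `S` on the Betti side, the set of the `x y⁻¹` with `x`, `y` in `S`, is defined over `ℚ`: it is
stable under all automorphisms of the field of complex numbers. -/
def RationalGroup {B : Type} [Fintype B] [DecidableEq B] (S : Set (Matrix B B ℂ)) : Prop :=
  ∀ σ : ℂ ≃+* ℂ, ∀ x ∈ S, ∀ y ∈ S, ∃ x' ∈ S, ∃ y' ∈ S, (x * y⁻¹).map σ = x' * y'⁻¹

/-- `A₀` is special: it has an endomorphism (up to isogeny) which is not a rational number, or there is a subtorsor `S` of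
the torsor of all isomorphisms from `H^1_dR` to `H^1_B`, over a field of algebraic numbers, which contains the matrix `C`
of the periods, whose group is defined over `ℚ`, and which is not stable under the symplectic group of `H`. -/
def Special {g : ℕ} (A₀ : AbVar g) (H : Matrix (Fin (2 * g)) (Fin (2 * g)) ℚ) (C : Matrix (Fin (2 * g)) (Fin (2 * g)) ℂ) :
    Prop :=
  HasExtraEndo A₀ ∨ ∃ (K : Subfield ℂ) (S : Set (Matrix (Fin (2 * g)) (Fin (2 * g)) ℂ)), (∀ x ∈ K, IsAlgebraic ℚ x) ∧
    IsSubtorsor K S ∧ RationalGroup S ∧ C ∈ S ∧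
    ∃ γ : Matrix (Fin (2 * g)) (Fin (2 * g)) ℂ, γ * toC H * γᵀ = toC H ∧ ∃ x ∈ S, γ * x ∉ S

/-- The condition on the central fibre (or the limit): it is a special abelian variety, or the toric rank is at least
three. -/
def SpecialCentre {g : ℕ} (C : Matrix (Fin (2 * g)) (Fin (2 * g)) ℂ) (H M : Matrix (Fin (2 * g)) (Fin (2 * g)) ℚ) : Prop :=
  (M = 0 ∧ ∃ A₀ : AbVar g, Presents A₀ H C ∧ Special A₀ H C) ∨ ToricRankThree C H M

/-! ### 1-motives -/

section motives

/-- The rows (Betti side): the `2g` cycles of `A`, lifted to `G`, the circles of the torus, and the paths from `0` to the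
points of `G`. The columns (de Rham side) have the same indices. -/
abbrev Idx (g : ℕ) (R J : Type) : Type := (Fin (2 * g) ⊕ J) ⊕ R

variable {g : ℕ} {R : Type} [Fintype R] [DecidableEq R] {J : Type} [Fintype J] [DecidableEq J]

/-- The block matrix `(X, z, 0; 0, μ, 0; Y, w, κ)`. -/
def block (X : Matrix (Fin (2 * g)) (Fin (2 * g)) ℂ) (z : Matrix (Fin (2 * g)) J ℂ) (μ : ℂ)
    (Y : Matrix R (Fin (2 * g)) ℂ) (w : Matrix R J ℂ) (κ : ℂ) : Matrix (Idx g R J) (Idx g R J) ℂ :=
  fromBlocks (fromBlocks X z 0 (μ • 1)) 0 (fromCols Y w) (κ • 1)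

/-- The index set `Fin (2 * g)` of the de Rham basis of `A`: first the `g` differentials `d z_k` of the first kind, then the
`g` differentials `d (∂_k log θ₀)` of the second kind. -/
def split (g : ℕ) : Fin (2 * g) ≃ Fin g ⊕ Fin g := (finCongr (two_mul g)).trans finSumFinEquiv.symm

variable (A : AbVar g)

/-- The period matrix of `A`. -/
def abelianPeriods : Matrix (Fin (2 * g)) (Fin (2 * g)) ℂ :=
  Matrix.of fun i j => Sum.elim (fun k => A.lam i k) (fun k => A.η i k) (split g j)

/-- The periods of the differentials of the third kind. -/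
def thirdPeriods (q f : J → Fin g → ℂ) : Matrix (Fin (2 * g)) J ℂ :=
  Matrix.of fun i j => ∑ k, (f j k * A.lam i k - A.η i k * q j k)

/-- The period matrix of `M`. -/
def periodMatrix (u e : R → Fin g → ℂ) (q f : J → Fin g → ℂ) (L : Matrix R J ℂ) : Matrix (Idx g R J) (Idx g R J) ℂ :=
  block (abelianPeriods A) (thirdPeriods A q f) (2 * Real.pi * Complex.I)
    (Matrix.of fun r j => Sum.elim (u r) (e r) (split g j)) L 1

/-- The Riemann form on `H_1(A, ℂ)`, in the basis `lam`. -/
def riemann (v w : Fin (2 * g) → ℂ) : ℂ :=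
  ∑ a, ∑ b, v a * w b * ((∑ k, (A.η a k * A.lam b k - A.η b k * A.lam a k)) / (2 * Real.pi * Complex.I))

/-- The columns `γ ↦ ω(Z_j, γ)`, for the cycles `γ` of the basis. -/
def columns (Z : J → Fin (2 * g) → ℂ) : Matrix (Fin (2 * g)) J ℂ := Matrix.of fun i j => riemann A (Z j) (Pi.single i 1)

/-- The lattice of periods of `A`. -/
def lattice : Submodule ℤ (Fin g → ℂ) := Submodule.span ℤ (Set.range A.lam)

/-- The inverse image in `ℂ^g` of `A(F)`. -/
def points (F : IntermediateField ℚ ℂ) : Set (Fin g → ℂ) := {z | ∃ i, A.θ i z ≠ 0 ∧ ∀ j, A.θ j z / A.θ i z ∈ F}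

/-- `A`, with its embedding and its endomorphisms, is defined over the number field `F`. -/
structure DefinedOver (F : IntermediateField ℚ ℂ) : Prop where
  numberField : FiniteDimensional ℚ F
  /-- the invariant differentials `d z_k` are defined over `F` -/
  differentials : ∀ k i j, ∃ a : Fin (A.N + 1) → Fin (A.N + 1) → ℂ, (∀ p q, a p q ∈ F) ∧
    ∀ z, A.θ i z * pd k (A.θ j) z - A.θ j z * pd k (A.θ i) z = ∑ p, ∑ q, a p q * (A.θ p z * A.θ q z)
  /-- the sum of two points over `F` is a point over `F` -/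
  add : ∀ z ∈ points A F, ∀ w ∈ points A F, z + w ∈ points A F
  /-- the endomorphisms are defined over `F` -/
  endo : ∀ Q : (Fin g → ℂ) →ₗ[ℂ] (Fin g → ℂ), (∀ w ∈ lattice A, Q w ∈ lattice A) → ∀ z ∈ points A F, Q z ∈ points A F
  /-- the endomorphisms (with matrix `m` for the basis `lam` of the lattice) act on the de Rham cohomology by matrices with
  algebraic entries -/
  deRham : ∀ (Q : (Fin g → ℂ) →ₗ[ℂ] (Fin g → ℂ)) (m : Matrix (Fin (2 * g)) (Fin (2 * g)) ℤ),
    (∀ j, Q (A.lam j) = ∑ i, (m j i : ℂ) • A.lam i) → ∃ b : Matrix (Fin (2 * g)) (Fin (2 * g)) ℂ,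
      (∀ i j, IsAlgebraic ℚ (b i j)) ∧ m.map (Int.cast : ℤ → ℂ) * abelianPeriods A = abelianPeriods A * b

/-- The family `(Y, Z)` of elements of `H_1(A, ℂ)` satisfies all relations `∑ E_r Y_r + ∑ E'_j Z_j = 0` with `E_r, E'_j ∈ End A`
and `∑ E_r P_r + ∑ E'_j Q_j = 0` (`m` are the matrices of the endomorphisms for the basis `lam` of the lattice). -/
def IsRelated (u : R → Fin g → ℂ) (q : J → Fin g → ℂ) (Y : R → Fin (2 * g) → ℂ) (Z : J → Fin (2 * g) → ℂ) : Prop :=
  ∀ (E : R ⊕ J → (Fin g → ℂ) →ₗ[ℂ] (Fin g → ℂ)) (m : R ⊕ J → Matrix (Fin (2 * g)) (Fin (2 * g)) ℤ),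
    (∀ s j, E s (A.lam j) = ∑ i, (m s j i : ℂ) • A.lam i) → ∑ s, E s (Sum.elim u q s) ∈ lattice A →
      ∀ i, ∑ s, ∑ j, Sum.elim Y Z s j * (m s j i : ℂ) = 0

/-- The complex span of the commutators `ω(Z'_j, Y_r) - ω(Z_j, Y'_r)`, for rational families `(Y, Z)`, `(Y', Z')` which satisfy
the relations. -/
def commutators (u : R → Fin g → ℂ) (q : J → Fin g → ℂ) : Submodule ℂ (Matrix R J ℂ) :=
  Submodule.span ℂ {c | ∃ (Y Y' : R → Fin (2 * g) → ℚ) (Z Z' : J → Fin (2 * g) → ℚ),
    IsRelated A u q (fun r a => Y r a) (fun j a => Z j a) ∧ IsRelated A u q (fun r a => Y' r a) (fun j a => Z' j a) ∧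
    c = Matrix.of fun r j =>
      riemann A (fun a => Z' j a) (fun a => Y r a) - riemann A (fun a => Z j a) (fun a => Y' r a)}

/-- The coordinates in `H_1(A, ℂ)` of the vectors `(u_r, e_r)`: the rows `y_r` with `y_r (abelianPeriods A) = (u_r, e_r)`. -/
def coordinates {S : Type} (u e : S → Fin g → ℂ) : S → Fin (2 * g) → ℂ :=
  fun r => (fun j => Sum.elim (u r) (e r) (split g j)) ᵥ* (abelianPeriods A)⁻¹

/-- The numbers `ℓ_{rj}`: the part of weight `-2` of the logarithm of the period matrix, times `2πi`. -/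
def logarithm (u e : R → Fin g → ℂ) (q f : J → Fin g → ℂ) (L : Matrix R J ℂ) : Matrix R J ℂ :=
  Matrix.of fun r j => L r j - (1 / 2) * ∑ k, (f j k * u r k - e r k * q j k)

/-- The sum of the `χ_{rj} w_{rj}`. -/
def pairing (χ : Matrix R J ℤ) (w : Matrix R J ℂ) : ℂ := ∑ r, ∑ j, (χ r j : ℂ) * w r j

/-- The integral matrices which are zero on the commutators. -/
def IsCentral (u : R → Fin g → ℂ) (q : J → Fin g → ℂ) (χ : Matrix R J ℤ) : Prop :=
  ∀ c ∈ commutators A u q, pairing χ c = 0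

/-- The multilinear forms in `2m` variables in the rational homology. -/
abbrev Form (m : ℕ) : Type := MultilinearMap ℚ (fun _ : Fin m × Fin 2 => A.H1) ℚ

/-- `φ` is a de Rham-Betti class in `H^1(A) ^ {⊗ 2m} (m)`. -/
def IsDRB {m : ℕ} (φ : Form A m) : Prop :=
  IsDeRhamBettiForm QBar A.dR (2 * Real.pi * Complex.I) m φ

/-- `φ` is a Hodge class in `H^1(A) ^ {⊗ 2m} (m)`. -/
def IsHodge {m : ℕ} (φ : Form A m) : Prop := IsHodgeTensor (A.per : A.H1 →+ (Fin g → ℂ)) φ

/-- The endomorphism `X` annihilates the form `φ` (as a derivation). -/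
def Annihilates {m : ℕ} (X : Module.End ℚ A.H1) (φ : Form A m) : Prop :=
  ∀ v, ∑ k, φ (Function.update v k (X (v k))) = 0

/-- `X` is in the Lie algebra `𝔤`: it annihilates all classes that are Hodge classes and de Rham-Betti classes. -/
def InLie (X : Module.End ℚ A.H1) : Prop :=
  ∀ (m : ℕ) (φ : Form A m), IsHodge A φ → IsDRB A φ → Annihilates A X φ

/-- The algebra of the endomorphisms of `H_1(A, ℂ)`, as matrices for the basis of the lattice (acting on columns). -/
abbrev EndC (_ : AbVar g) : Type := Matrix (Fin (2 * g)) (Fin (2 * g)) ℂ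

/-- The matrix of the extension of an endomorphism of `H_1(A, ℚ)` to `H_1(A, ℂ)`. -/
def extend (X : Module.End ℚ A.H1) : EndC A := Matrix.of fun i j => (X (Pi.single j 1) i : ℂ)

/-- The complex Lie algebra `𝔤 ⊗ ℂ`, acting on `H_1(A, ℂ)`. -/
def lieC : Submodule ℂ (EndC A) := Submodule.span ℂ {Y | ∃ X, InLie A X ∧ Y = extend A X}

/-- The Lie algebra given by a set `S` of pairs `(χ, n)`: all block matrices `(X, z, 0; 0, μ, 0; Y, w, 0)` such that the transpose
of `X` is in `μ / 2 + 𝔤 ⊗ ℂ`, `z` is `columns A Z`, `(Y, Z)` satisfies the relations and `∑ χ_{rj} w_{rj} = n μ` for all `(χ, n)`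
in `S`. -/
def motivicLie (u : R → Fin g → ℂ) (q : J → Fin g → ℂ) (S : Set (Matrix R J ℤ × ℤ)) :
    Set (Matrix (Idx g R J) (Idx g R J) ℂ) :=
  {W | ∃ X Z μ Y w, Xᵀ - (μ / 2) • 1 ∈ lieC A ∧ IsRelated A u q Y Z ∧
    (∀ s ∈ S, pairing s.1 w = s.2 * μ) ∧ W = block X (columns A Z) μ (Matrix.of Y) w 0}

/-- The data of a 1-motive over the field `F`: `A` and its endomorphisms are defined over the number field `F`, the `u r` and
`q j` are logarithms of points `P_r`, `Q_j` of `A(F)`, and the vectors `(u r, e r)`, `(q j, f j)` are normalised: they satisfy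
the relations of the points. -/
structure IsOneMotive (F : IntermediateField ℚ ℂ) (u e : R → Fin g → ℂ) (q f : J → Fin g → ℂ) : Prop where
  definedOver : DefinedOver A F
  path : ∀ r, u r ∈ points A F
  extension : ∀ j, q j ∈ points A F
  normalised : IsRelated A u q (coordinates A u e) (coordinates A q f)

/-- `b` is an invertible matrix of algebraic numbers, which respects the weights (the columns of degree zero are
combinations of columns of degree zero, the columns of `H^1(A)` are combinations of these and of the columns of degree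
zero), and `b₁` is its part for `H^1(A)`: the columns of `periodMatrix * b` are the periods of another basis of the de Rham
realisation. -/
def IsBasis {g : ℕ} {R J : Type} [Fintype R] [DecidableEq R] [Fintype J] [DecidableEq J]
    (b : Matrix (Idx g R J) (Idx g R J) ℂ) (b₁ : Matrix (Fin (2 * g)) (Fin (2 * g)) ℂ) : Prop :=
  IsUnit b ∧ (∀ i j, IsAlgebraic ℚ (b i j)) ∧ ∃ b₂ b₃ b₄ b₅ b₆, b = fromBlocks (fromBlocks b₁ b₂ 0 b₃) 0 (fromCols b₄ b₅) b₆

end motives

/-- `A` is isogenous over `K` to the product of the fibres with the period matrices `P (jj i)`, `i = 1, …, m`: in a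
suitable rational basis of the homology (`R`) and a suitable basis over `K` of the de Rham cohomology (`U`, while `b₁` is the
given basis over `K`) the period matrix of `A` is the block diagonal matrix with the blocks `P (jj i)`. -/
def IsProduct (K : Subfield ℂ) {g' n m N : ℕ} (A : AbVar g') (P : Fin N → Matrix (Fin n) (Fin n) ℂ) (jj : Fin m → Fin N)
    (b₁ : Matrix (Fin (2 * g')) (Fin (2 * g')) ℂ) : Prop :=
  ∃ (R : Matrix (Fin n × Fin m) (Fin (2 * g')) ℚ) (R' : Matrix (Fin (2 * g')) (Fin n × Fin m) ℚ)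
    (U : Matrix (Fin (2 * g')) (Fin n × Fin m) ℂ) (U' : Matrix (Fin n × Fin m) (Fin (2 * g')) ℂ),
    R * R' = 1 ∧ R' * R = 1 ∧ U * U' = 1 ∧ U' * U = 1 ∧ (∀ i j, U i j ∈ K) ∧ (∀ i j, U' i j ∈ K) ∧
    R.map (fun x : ℚ => (x : ℂ)) * (abelianPeriods A * b₁) * U = blockDiagonal fun i => P (jj i)

/-- The group of the matrices `x y⁻¹`, `x, y ∈ T`, is defined by polynomials with rational coefficients. -/
def GroupOverQ {B : Type} [Fintype B] [DecidableEq B] (T : Set (Matrix B B ℂ)) : Prop :=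
  ∃ I : Set (MvPolynomial (B × B) ℂ), (∀ p ∈ I, ∀ m, ∃ q : ℚ, p.coeff m = q) ∧
    ∀ g : Matrix B B ℂ, (∃ x ∈ T, ∃ y ∈ T, g = x * y⁻¹) ↔ IsUnit g ∧
      ∀ p ∈ I, MvPolynomial.eval (fun b => g b.1 b.2) p = 0

/-- The conclusion for one tuple of parameters; `P j` is the period matrix of the fibre. For all number fields `K` of degree
at most `D`, all 1-motives whose abelian part is isogenous over `K` to a product of the fibres (with repetitions, `jj`), and
all `K`-subtorsors `S` of `Iso (M_dR, M_B)` which contain the period matrix and whose group is defined over `ℚ`: -/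
def Good (D : ℕ) {n N : ℕ} (P : Fin N → Matrix (Fin n) (Fin n) ℂ) : Prop :=
  ∀ K : Subfield ℂ, FiniteDimensional ℚ K → Module.finrank ℚ K ≤ D →
  ∀ (g' m : ℕ) (jj : Fin m → Fin N) (A : AbVar g') (R J : Type) [Fintype R] [DecidableEq R] [Fintype J] [DecidableEq J]
    (b : Matrix (Idx g' R J) (Idx g' R J) ℂ) (b₁ : Matrix (Fin (2 * g')) (Fin (2 * g')) ℂ), IsBasis b b₁ →
    IsProduct K A P jj b₁ →
  ∀ (F : IntermediateField ℚ ℂ) (u e : R → Fin g' → ℂ) (q f : J → Fin g' → ℂ), IsOneMotive A F u e q f →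
  ∀ (L : Matrix R J ℂ) (S : Set (Matrix (Idx g' R J) (Idx g' R J) ℂ)), IsSubtorsor K S → GroupOverQ S →
    periodMatrix A u e q f L * b ∈ S →
    -- 1: arbitrary `L`
    (∀ W ∈ motivicLie A u q {s | IsCentral A u q s.1 ∧
        IsAlgebraic ℚ (pairing s.1 (logarithm u e q f L) - (s.2 : ℂ) * (2 * Real.pi * Complex.I))},
      ∀ x ∈ S, NormedSpace.exp W * x ∈ S) ∧
    -- 2: the 1-motives over the algebraic numbers
    ((∀ χ, IsCentral A u q χ → IsAlgebraic ℚ (Complex.exp (pairing χ (logarithm u e q f L)))) →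
      ∀ W ∈ motivicLie A u q {s | IsCentral A u q s.1 ∧
        pairing s.1 (logarithm u e q f L) = (s.2 : ℂ) * (2 * Real.pi * Complex.I)},
      ∀ x ∈ S, NormedSpace.exp W * x ∈ S)

/-! ### Auxiliary lemmas -/

theorem iter_eq {r : ℕ} (T : Polynomial ℤ) (A : Fin r → Fin r → Polynomial ℤ) (s : ℕ) :
    iter T A s = Pool.Agent.Y120.GH.itm T A s := by
  induction s with
  | zero => rfl
  | succ s ih =>
    funext i j
    rw [iter, Pool.Agent.Y120.GH.itm, ih]

theorem qu_eq {r : ℕ} {T : Polynomial ℤ} {A : Fin r → Fin r → Polynomial ℤ} (h : QuasiUnipotent T A) :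
    Pool.Agent.Y120.GH.QU0 T A := by
  obtain ⟨e, M, K, Φ, he, hdet, hc, heq⟩ := h
  have he0 : e ≠ 0 := by omega
  refine ⟨e, he0, M, K, Φ, hc, fun i j n => ?_, hdet⟩
  have h1 := heq i j n
  simp only [atPow] at h1
  rw [Pool.Agent.Y120.GH.expand_poly he0]
  simp only [Pool.Agent.Y120.GH.expand_poly he0]
  exact h1

theorem gal_eq {r : ℕ} {T : Polynomial ℤ} {A : Fin r → Fin r → Polynomial ℤ} {h : Fin r → PowerSeries ℚ}
    (hG : GFamily T A h) : ∃ C : ℝ, ∀ m, ∃ d : ℕ, 0 < d ∧ (d : ℝ) ≤ C ^ (m + 1) ∧ ∀ s ≤ m, ∀ i j, ∃ H : Polynomial ℤ,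
      (d : Polynomial ℤ) * Pool.Agent.Y120.GH.itm T A s i j = (s.factorial : Polynomial ℤ) * H := by
  obtain ⟨C, hC⟩ := hG.galochkin
  refine ⟨C, fun m => ?_⟩
  obtain ⟨d, h1, h2, h3⟩ := hC m
  refine ⟨d, h1, h2, fun s hs i' j' => ?_⟩
  rw [← iter_eq]
  exact h3 s hs i' j'

theorem map_eq {n : ℕ} (M : Matrix (Fin n) (Fin n) ℚ) : toC M = Pool.Agent.Y119.HY.cm M := by
  ext i j
  rw [Pool.Agent.Y119.HY.cm_apply]
  rfl

theorem sym_inf {n : ℕ} {Z : Matrix (Fin n) (Fin n) (PowerSeries ℚ)} {X : Matrix (Fin n) (Fin n) ℂ} (h : Symmetry Z X) :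
    Pool.Agent.Helper880_R3.Inf Z X := by
  intro R hR
  refine Eq.trans ?_ (h R hR)
  unfold Pool.Agent.Helper880_R3.DX
  rw [map_sum]
  refine Finset.sum_congr rfl fun b _ => ?_
  rw [map_mul, map_sum, Matrix.mul_apply]
  refine congrArg₂ (· * ·) rfl (Finset.sum_congr rfl fun l _ => ?_)
  rw [map_mul, MvPolynomial.aeval_C, MvPolynomial.aeval_X, Matrix.map_apply, Matrix.map_apply]
  have h1 : algebraMap (Polynomial ℂ) (PowerSeries ℂ) (Polynomial.C (X b.1 l)) = PowerSeries.C (X b.1 l) :=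
    Polynomial.coe_C _
  rw [h1]
  rfl

theorem pres_of {g : ℕ} {A : AbVar g} {H : Matrix (Fin (2 * g)) (Fin (2 * g)) ℚ}
    {P : Matrix (Fin (2 * g)) (Fin (2 * g)) ℂ} (h : Presents A H P) : ∃ R, Pool.Agent.H936.SL.Pres A H P R := by
  obtain ⟨R, T, q, hR, hP, hT, hq, hPT, hE⟩ := h
  set e := Pool.Agent.R917.eqv g with he
  set Ts : Matrix (Fin (2 * g)) (Fin (2 * g)) ℂ := T.submatrix e.symm id with hTs
  have h1 : P = Pool.Agent.Y119.HY.cm R * Pool.Agent.R917.PM A * Ts := by
    rw [hPT, map_eq, Matrix.mul_assoc, Matrix.mul_assoc]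
    congr 1
    ext a b
    rw [Matrix.mul_apply, Matrix.mul_apply, ← Equiv.sum_comp e]
    refine Finset.sum_congr rfl fun i _ => ?_
    rw [Pool.Agent.R917.PM_apply, hTs, Matrix.submatrix_apply, Equiv.symm_apply_apply]
    rfl
  have h2 : IsUnit Ts.det := by
    have h3 := (Matrix.isUnit_iff_isUnit_det _).1 hP
    rw [h1, Matrix.det_mul] at h3
    exact isUnit_of_mul_isUnit_right h3
  refine ⟨R, Ts, Ts⁻¹, q, (Matrix.isUnit_iff_isUnit_det _).1 hR, Matrix.mul_nonsing_inv _ h2, fun i j => hT _ _, hq, h1, ?_⟩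
  ext a b
  have h3 := hE a b
  have h4 : ∀ c d, riemannForm A.lam A.η (A.lam c) (A.lam d) = ((Pool.Agent.H936.SL.EM A c d : ℚ) : ℂ) := by
    intro c d
    have h5 := A.rf_eq (Pi.single c 1) (Pi.single d 1)
    have h6 : ∀ c : Fin (2 * g), A.per (Pi.single c 1) = A.lam c := by
      intro c
      have h7 := A.per_bas c
      have h8 : A.bas c = Pi.single c 1 := Pi.basisFun_apply ℚ (Fin (2 * g)) c
      rwa [h8] at h7
    rw [h6, h6] at h5
    exact h5
  simp only [h4] at h3
  have h5 : (((R * Pool.Agent.H936.SL.EM A * Rᵀ) a b : ℚ) : ℂ) = ((q * H a b : ℚ) : ℂ) := by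
    push_cast
    rw [← h3, Matrix.mul_apply]
    push_cast
    rw [Finset.sum_comm]
    refine Finset.sum_congr rfl fun d _ => ?_
    rw [Matrix.mul_apply, Matrix.transpose_apply]
    push_cast
    rw [Finset.sum_mul]
  rw [Matrix.smul_apply, smul_eq_mul]
  exact_mod_cast h5

theorem endo_of {g : ℕ} {A : AbVar g} {X : Module.End ℚ A.H1} (h : IsEndo A X) :
    Pool.Agent.W516.DR.IsDeRhamBettiEnd Pool.Agent.Y102.QBar A.dR X := by
  obtain ⟨a, ha, h⟩ := h
  exact ⟨fun i j => ⟨a i j, mem_algebraicClosure_iff.2 (ha i j)⟩, h⟩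

/-- special fibres -/
theorem spc_of {g : ℕ} (hg : 0 < g) {A₀ : AbVar g} {H R : Matrix (Fin (2 * g)) (Fin (2 * g)) ℚ}
    {C : Matrix (Fin (2 * g)) (Fin (2 * g)) ℂ} (hp : Pool.Agent.H936.SL.Pres A₀ H C R) (hH : Hᵀ = -H) (hd : IsUnit H.det)
    (hC : IsUnit C.det) (h : Special A₀ H C) : ∃ (K : Subfield ℂ) (S : Set (Matrix (Fin (2 * g)) (Fin (2 * g)) ℂ)),
      Pool.Agent.H936.G.Spc A₀ H C R K S := by
  rcases h with ⟨X₀, hX₀, hns⟩ | ⟨K, S, hK, hS, hSr, hm, γ, hγ, x, hx, hx'⟩
  · exact Pool.Agent.H936.G.spc_of_end hg hp hH hd hC (endo_of hX₀) hns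
  · have hHc := Pool.Agent.H936.G.cm_unit hd
    have hHct : (Pool.Agent.Y119.HY.cm H)ᵀ = -Pool.Agent.Y119.HY.cm H := by
      rw [← Pool.Agent.Y119.HY.cm_transpose, hH, Pool.Agent.Y119.HY.cm_neg]
    obtain ⟨u, hu, hu'⟩ := Pool.Agent.Y123.GN.quot_GB (X := 1) (Y := γ) (μ := 1)
      (B := Pool.Agent.Y119.HY.cm H) (Q := Pool.Agent.Y119.HY.cm H) one_ne_zero isUnit_one
      (by rw [Matrix.one_mul, Matrix.transpose_one, Matrix.mul_one, one_smul])
      (by rw [one_smul, ← map_eq]; exact hγ) (Or.inl ⟨(Matrix.isUnit_iff_isUnit_det _).2 hHc, hHct⟩)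
    refine ⟨K, S, hK, Pool.Agent.Y123.ST.subT_iff.1 hS, hSr, hm, hp, u, hu, x, hx, ?_⟩
    rw [Matrix.mul_one] at hu'
    rw [hu']
    exact hx'

section
variable {g : ℕ} {R : Type} [Fintype R] [DecidableEq R] {J : Type} [Fintype J] [DecidableEq J] (A : AbVar g)

theorem entry_eq (a b : Fin (2 * g)) : (∑ k, (A.η a k * A.lam b k - A.η b k * A.lam a k)) / (2 * Real.pi * Complex.I) =
    ((A.om (A.bas a) (A.bas b) : ℚ) : ℂ) := by
  rw [A.om_pairing]
  simp only [A.eta_bas, A.per_bas]

theorem columns_eq (Z : J → Fin (2 * g) → ℂ) :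
    columns A Z = Pool.Agent.X306.AV.tz A (Matrix.of fun j a => Z j a) := by
  ext i j
  change ∑ a, ∑ b, Z j a * (Pi.single i 1 : Fin (2 * g) → ℂ) b * _ = ∑ a, Z j a * ((A.om (A.bas a) (A.bas i) : ℚ) : ℂ)
  refine Finset.sum_congr rfl fun a _ => ?_
  rw [Finset.sum_eq_single i]
  · rw [Pi.single_eq_same, mul_one, entry_eq]
  · intro b _ hb
    rw [Pi.single_eq_of_ne hb, mul_zero, zero_mul]
  · intro h
    exact absurd (Finset.mem_univ _) h

theorem riemann_rat (v w : Fin (2 * g) → ℚ) :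
    riemann A (fun a => (v a : ℂ)) (fun a => (w a : ℂ)) = ((A.om v w : ℚ) : ℂ) := by
  unfold riemann
  have h1 : ∀ w : Fin (2 * g) → ℚ, w = ∑ a, w a • A.bas a := by
    intro w
    conv_lhs => rw [← A.bas.sum_repr w]
    rfl
  have h2 : A.om v w = ∑ a, ∑ b, v a * (w b * A.om (A.bas a) (A.bas b)) := by
    conv_lhs => rw [h1 v]
    rw [map_sum, LinearMap.sum_apply]
    refine Finset.sum_congr rfl fun a _ => ?_
    rw [map_smul, LinearMap.smul_apply]
    conv_lhs => rw [h1 w]
    rw [map_sum, smul_eq_mul, Finset.mul_sum]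
    refine Finset.sum_congr rfl fun b _ => ?_
    rw [map_smul, smul_eq_mul]
  rw [h2, Rat.cast_sum]
  refine Finset.sum_congr rfl fun a _ => ?_
  rw [Rat.cast_sum]
  refine Finset.sum_congr rfl fun b _ => ?_
  rw [entry_eq, Rat.cast_mul, Rat.cast_mul]
  ring

theorem rel_iff (u : R → Fin g → ℂ) (q : J → Fin g → ℂ) (Y : R → Fin (2 * g) → ℂ) (Z : J → Fin (2 * g) → ℂ) :
    IsRelated A u q Y Z ↔ Pool.Agent.X306.AV.RelN A u q (Sum.elim Y Z) := Iff.rfl

theorem commutators_eq (u : R → Fin g → ℂ) (q : J → Fin g → ℂ) :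
    commutators A u q = Pool.Agent.X306.AV.CmS A u q := by
  have hcast : ∀ (Y : R → Fin (2 * g) → ℚ) (Z : J → Fin (2 * g) → ℚ),
      (Sum.elim (fun r a => ((Y r a : ℚ) : ℂ)) (fun j a => ((Z j a : ℚ) : ℂ)) : R ⊕ J → Fin (2 * g) → ℂ) =
      fun s a => ((Sum.elim Y Z s a : ℚ) : ℂ) := by
    intro Y Z
    funext s a
    rcases s with s | s <;> rfl
  unfold commutators Pool.Agent.X306.AV.CmS
  congr 1
  ext c
  constructor
  · rintro ⟨Y, Y', Z, Z', h, h', rfl⟩
    refine ⟨Sum.elim Y Z, Sum.elim Y' Z', ?_, ?_, ?_⟩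
    · rw [← hcast]
      exact h
    · rw [← hcast]
      exact h'
    · ext r j
      change riemann A _ _ - riemann A _ _ = ((A.om (Z' j) (Y r) - A.om (Z j) (Y' r) : ℚ) : ℂ)
      rw [riemann_rat, riemann_rat, Rat.cast_sub]
  · rintro ⟨N, N', h, h', rfl⟩
    refine ⟨fun r => N (Sum.inl r), fun r => N' (Sum.inl r), fun j => N (Sum.inr j), fun j => N' (Sum.inr j), ?_, ?_, ?_⟩
    · rw [rel_iff, hcast]
      refine (congrArg (Pool.Agent.X306.AV.RelN A u q) ?_).mp h
      funext s a
      rcases s with s | s <;> rfl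
    · rw [rel_iff, hcast]
      refine (congrArg (Pool.Agent.X306.AV.RelN A u q) ?_).mp h'
      funext s a
      rcases s with s | s <;> rfl
    · ext r j
      change ((A.om (N' (Sum.inr j)) (N (Sum.inl r)) - A.om (N (Sum.inr j)) (N' (Sum.inl r)) : ℚ) : ℂ) =
        riemann A _ _ - riemann A _ _
      rw [riemann_rat, riemann_rat, Rat.cast_sub]

theorem PA_eq : abelianPeriods A = Pool.Agent.X306.AV.PA A := by
  ext i j
  change Sum.elim (fun k => A.lam i k) (fun k => A.η i k) (split g j) = A.dR (split g j) (A.bas i)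
  rcases split g j with k | k
  · change A.lam i k = A.per (A.bas i) k
    rw [A.per_bas]
  · change A.η i k = A.eta (A.bas i) k
    rw [A.eta_bas]

theorem coordinates_eq (u e : R → Fin g → ℂ) (q f : J → Fin g → ℂ) :
    Sum.elim (coordinates A u e) (coordinates A q f) = Pool.Agent.X306.AV.Nm A u e q f := by
  funext s
  rcases s with r | j
  · change (fun j => Sum.elim (u r) (e r) (split g j)) ᵥ* (abelianPeriods A)⁻¹ = _
    rw [PA_eq]
    rfl
  · change (fun i => Sum.elim (q j) (f j) (split g i)) ᵥ* (abelianPeriods A)⁻¹ = _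
    rw [PA_eq]
    rfl

theorem logarithm_eq (u e : R → Fin g → ℂ) (q f : J → Fin g → ℂ) (L : Matrix R J ℂ) :
    logarithm u e q f L = Pool.Agent.X306.AV.ell A u e q f L := by
  have h1 : (2 * Real.pi * Complex.I : ℂ) • (Pool.Agent.X306.AV.yM (Pool.Agent.X306.AV.Nm A u e q f) *
      Pool.Agent.X306.AV.tz A (Pool.Agent.X306.AV.zM (Pool.Agent.X306.AV.Nm A u e q f))) =
      (Matrix.of fun r s => Pool.Agent.X306.AV.UU (u r) (e r) ((Pool.Agent.X306.AV.eqv g).symm s)) *
        Pool.Agent.X306.AV.sw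
          (Matrix.of fun j s => Pool.Agent.X306.AV.UU (q j) (f j) ((Pool.Agent.X306.AV.eqv g).symm s)) := by
    rw [← Pool.Agent.X306.AV.yM_PA (A := A) (q := q) (f := f), ← Pool.Agent.X306.AV.zM_PA (A := A) (u := u) (e := e),
      Matrix.mul_assoc, Pool.Agent.X306.AV.PA_sw, Matrix.mul_smul]
  ext r j
  have h2 := congrFun (congrFun h1 r) j
  rw [Matrix.smul_apply, smul_eq_mul, Matrix.mul_apply (M := Matrix.of fun r s => Pool.Agent.X306.AV.UU (u r) (e r)
    ((Pool.Agent.X306.AV.eqv g).symm s)), Pool.Agent.X306.AV.sum_eqv] at h2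
  have h3 : ∑ k, (f j k * u r k - e r k * q j k) = ∑ k, (Matrix.of fun r s => Pool.Agent.X306.AV.UU (u r) (e r)
      ((Pool.Agent.X306.AV.eqv g).symm s)) r (Pool.Agent.X306.AV.eqv g (Sum.inl k)) * Pool.Agent.X306.AV.sw
      (Matrix.of fun j s => Pool.Agent.X306.AV.UU (q j) (f j) ((Pool.Agent.X306.AV.eqv g).symm s))
        (Pool.Agent.X306.AV.eqv g (Sum.inl k)) j + ∑ k, (Matrix.of fun r s => Pool.Agent.X306.AV.UU (u r) (e r)
      ((Pool.Agent.X306.AV.eqv g).symm s)) r (Pool.Agent.X306.AV.eqv g (Sum.inr k)) * Pool.Agent.X306.AV.sw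
      (Matrix.of fun j s => Pool.Agent.X306.AV.UU (q j) (f j) ((Pool.Agent.X306.AV.eqv g).symm s))
        (Pool.Agent.X306.AV.eqv g (Sum.inr k)) j := by
    rw [← Finset.sum_add_distrib]
    refine Finset.sum_congr rfl fun k _ => ?_
    simp only [Pool.Agent.X306.AV.sw, Matrix.of_apply, Equiv.symm_apply_apply, Sum.elim_inl, Sum.elim_inr,
      Pool.Agent.X306.AV.UU]
    ring
  change L r j - (1 / 2) * ∑ k, (f j k * u r k - e r k * q j k) = L r j - ((2 * Real.pi * Complex.I) / 2) * _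
  rw [h3, ← h2]
  ring

theorem third_eq (q f : J → Fin g → ℂ) : thirdPeriods A q f = Pool.Agent.X306.AV.PA A * Pool.Agent.X306.AV.sw
      (Matrix.of fun j s => Pool.Agent.X306.AV.UU (q j) (f j) ((Pool.Agent.X306.AV.eqv g).symm s)) := by
  ext i j
  rw [Matrix.mul_apply, Pool.Agent.X306.AV.sum_eqv]
  change ∑ k, (f j k * A.lam i k - A.η i k * q j k) =
    ∑ k, Pool.Agent.X306.AV.PA A i (Pool.Agent.X306.AV.eqv g (Sum.inl k)) * Sum.elim
      (fun k => Pool.Agent.X306.AV.UU (q j) (f j) ((Pool.Agent.X306.AV.eqv g).symm (Pool.Agent.X306.AV.eqv g (Sum.inr k))))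
      (fun k => -Pool.Agent.X306.AV.UU (q j) (f j) ((Pool.Agent.X306.AV.eqv g).symm (Pool.Agent.X306.AV.eqv g (Sum.inl k))))
      ((Pool.Agent.X306.AV.eqv g).symm (Pool.Agent.X306.AV.eqv g (Sum.inl k))) +
    ∑ k, Pool.Agent.X306.AV.PA A i (Pool.Agent.X306.AV.eqv g (Sum.inr k)) * Sum.elim
      (fun k => Pool.Agent.X306.AV.UU (q j) (f j) ((Pool.Agent.X306.AV.eqv g).symm (Pool.Agent.X306.AV.eqv g (Sum.inr k))))
      (fun k => -Pool.Agent.X306.AV.UU (q j) (f j) ((Pool.Agent.X306.AV.eqv g).symm (Pool.Agent.X306.AV.eqv g (Sum.inl k))))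
      ((Pool.Agent.X306.AV.eqv g).symm (Pool.Agent.X306.AV.eqv g (Sum.inr k)))
  simp only [Equiv.symm_apply_apply, Sum.elim_inl, Sum.elim_inr, Pool.Agent.X306.AV.PA_inl,
    Pool.Agent.X306.AV.PA_inr, A.per_bas, A.eta_bas, Pool.Agent.X306.AV.UU]
  rw [← Finset.sum_add_distrib]
  refine Finset.sum_congr rfl fun k _ => ?_
  ring

theorem period_eq (u e : R → Fin g → ℂ) (q f : J → Fin g → ℂ) (L : Matrix R J ℂ) :
    periodMatrix A u e q f L = Pool.Agent.X306.AV.sm (Pool.Agent.X306.AV.prS u e q f L A) 1 := by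
  have hblock : ∀ X z μ Y w κ, block (g := g) (R := R) (J := J) X z μ Y w κ =
      Pool.Agent.X306.AV.sm (X, z, μ, Y, w) κ := fun X z μ Y w κ => rfl
  unfold periodMatrix
  rw [hblock, PA_eq, third_eq]
  rfl

end

/-- the constants of the fibres move in a small space -/
theorem few_std {g : ℕ} (hg : 2 ≤ g) {C B : Matrix (Fin (2 * g)) (Fin (2 * g)) ℂ} {H M : Matrix (Fin (2 * g)) (Fin (2 * g)) ℚ}
    (hc : Pool.Agent.H936.G.Cen C H M B (2 * Real.pi * Complex.I))
    {𝔉 : Submodule (Pool.Agent.Y118.UL.U ℂ) (Matrix (Fin (2 * g)) (Fin (2 * g)) (Pool.Agent.Y118.UL.U ℂ))} {d : ℕ}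
    (hd : Module.finrank (Pool.Agent.Y118.UL.U ℂ) 𝔉 + (2 * g - 1) ≤ d)
    (hF : ∀ δ : Pool.Agent.H936.G.DD, ∃ c : Pool.Agent.Y118.UL.U ℂ, Pool.Agent.H936.G.ld (fun _ => C) δ +
      c • (1 : Matrix (Fin (2 * g)) (Fin (2 * g)) (Pool.Agent.Y118.UL.U ℂ)) ∈ 𝔉) (σ : ℕ → ℂ) :
    Pool.Agent.H936.G.FewG d (Pool.Agent.H936.G.csq C M σ)
      ((2 * Real.pi * Complex.I : ℂ) • (1 : Matrix (Fin 1) (Fin 1) ℂ)) := by
  have h2 : Pool.Agent.H936.G.nz M = if M = 0 then 0 else 1 := rfl
  have h2' : Pool.Agent.H936.G.nz M ≤ 1 := by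
    rw [h2]
    split_ifs <;> omega
  refine Pool.Agent.H936.G.fewG_b (s := 0) (c := Fin.elim0) hc.cd hc.nil σ (Pool.Agent.H936.G.upS 𝔉) (fun δ => ?_)
    (fun δ hδ => Pool.Agent.H936.G.tau_zero (by omega) hc δ hδ) (fun i j => ?_) ?_
  · obtain ⟨c, hcc⟩ := hF δ
    exact Pool.Agent.H936.G.mem_upS hcc
  · rw [Matrix.smul_apply, smul_eq_mul, Matrix.one_apply, if_pos (Subsingleton.elim i j), mul_one]
    exact isAlgebraic_algebraMap (⟨_, IntermediateField.subset_adjoin _ _ (Set.mem_insert _ _)⟩ :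
      IntermediateField.adjoin ℚ (insert (2 * Real.pi * Complex.I : ℂ) (Set.range (Fin.elim0 : Fin 0 → ℂ) ∪
        Set.range fun p : Fin (2 * g) × Fin (2 * g) => C p.1 p.2)))
  · have h3 := Pool.Agent.H936.G.upS_dim 𝔉
    generalize Pool.Agent.H936.G.nz M = z at h2' ⊢
    generalize Module.finrank (Pool.Agent.Y118.UL.U ℂ) 𝔉 = x at hd h3
    generalize Module.finrank (Pool.Agent.Y118.UL.U ℂ) (Pool.Agent.H936.G.upS 𝔉) = y at h3 ⊢
    omega

/-- from the Lie algebras to the torsors -/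
theorem good_of {g N : ℕ} (hg : 2 ≤ g) {H : Matrix (Fin (2 * g)) (Fin (2 * g)) ℚ} (hHu : IsUnit H) (hHt : Hᵀ = -H) {D : ℕ}
    {P : Fin N → Matrix (Fin (2 * g)) (Fin (2 * g)) ℂ} (hpres : ∀ j, ∃ A : AbVar g, Presents A H (P j))
    (hV : ∀ K : Subfield ℂ, FiniteDimensional ℚ K → Module.finrank ℚ K ≤ D →
      ∀ V : Submodule ℂ (Matrix (Pool.Agent.Helper880_R3.Ix 1 (2 * g) N) (Pool.Agent.Helper880_R3.Ix 1 (2 * g) N) ℂ),
      Pool.Agent.H936.W.Sp K (Pool.Agent.Y119.HY.cm H⁻¹)
        (Pool.Agent.Helper880_R3.Tot ((2 * Real.pi * Complex.I : ℂ) • (1 : Matrix (Fin 1) (Fin 1) ℂ)) P) V →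
      ∀ i, ∀ X ∈ Pool.Agent.Helper880_LF.spS (Pool.Agent.Y119.HY.cm H⁻¹),
        Pool.Agent.Helper880_R3.ib (r₀ := 1) i X ∈ V) : Good D P := by
  intro K hK hKD g' m jj A R J _ _ _ _ b b₁ hb hprod F u e q f hM L S hS hG hc
  have hHd : IsUnit H.det := (Matrix.isUnit_iff_isUnit_det _).1 hHu
  have hS' := Pool.Agent.Y123.ST.subT_iff.1 hS
  have hKalg : ∀ x ∈ K, IsAlgebraic ℚ x := by
    intro x hx
    have : NumberField K := { to_charZero := inferInstance, to_finiteDimensional := hK }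
    have h6 : IsAlgebraic ℚ (⟨x, hx⟩ : K) := Algebra.IsAlgebraic.isAlgebraic _
    exact h6.algebraMap (A := ℂ)
  have hG' : Pool.Agent.X306.RL.GDef Pool.Agent.X306.EM.QQ S := by
    obtain ⟨I, hI1, hI2⟩ := hG
    exact ⟨I, fun p hp m => by
      obtain ⟨q, hq⟩ := hI1 p hp m
      exact Pool.Agent.X306.EM.mem_QQ.2 ⟨q, hq.symm⟩, hI2⟩
  have hn' : Pool.Agent.X306.AV.RelN A u q (Pool.Agent.X306.AV.Nm A u e q f) := by
    rw [← coordinates_eq]
    exact (rel_iff A u q _ _).1 hM.normalised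
  have hF := hM.definedOver
  have hE : Pool.Agent.X306.AV.EndAlg A := by
    rintro m ⟨Q, hQ⟩
    obtain ⟨b, hb, h1⟩ := hF.deRham Q m hQ
    rw [PA_eq] at h1
    exact ⟨b, hb, h1⟩
  have hF' : Pool.Agent.X306.AV.Fld A F := ⟨hF.numberField, hF.differentials, hF.add, hF.endo⟩
  have hp : ∀ j, ∃ (A : AbVar g) (R : Matrix (Fin (2 * g)) (Fin (2 * g)) ℚ), Pool.Agent.H936.SL.Pres A H (P j) R := by
    intro j
    obtain ⟨A, hA⟩ := hpres j
    obtain ⟨R, hR⟩ := pres_of hA
    exact ⟨A, R, hR⟩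
  obtain ⟨hbu, hba, b₂, b₃, b₄, b₅, b₆, hbb⟩ := hb
  have hbu' : IsUnit (Pool.Agent.H936.W.bl b₁ b₂ b₃ b₄ b₅ b₆).det := by
    have h1 := (Matrix.isUnit_iff_isUnit_det _).1 hbu
    rw [hbb] at h1
    exact h1
  have hba' : ∀ i j, IsAlgebraic ℚ (Pool.Agent.H936.W.bl b₁ b₂ b₃ b₄ b₅ b₆ i j) := by
    intro i j
    have h1 := hba i j
    rw [hbb] at h1
    exact h1
  have hc' : Pool.Agent.X306.AV.sm (Pool.Agent.X306.AV.prS u e q f L A) 1 *
      Pool.Agent.H936.W.bl b₁ b₂ b₃ b₄ b₅ b₆ ∈ S := by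
    rw [period_eq, hbb] at hc
    exact hc
  obtain ⟨R₁, R₁', U, U', h1, h2, h3, h4, h5, h6, h7⟩ := hprod
  have hPD : Pool.Agent.H936.W.PD K A H P jj R₁ R₁' U U' b₁ :=
    { md :=
        { r1 := h1
          r2 := h2
          u1 := h3
          u2 := h4
          uK := h5
          uK' := h6
          pu := fun j => by
            obtain ⟨A, hA⟩ := hpres j
            obtain ⟨-, -, -, -, hA, -⟩ := hA
            exact (Matrix.isUnit_iff_isUnit_det _).1 hA
          eq := by
            rw [← PA_eq]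
            exact h7 }
      alg := hKalg
      b1 := by
        rw [show (Pool.Agent.H936.W.bl b₁ b₂ b₃ b₄ b₅ b₆).det = _ from Matrix.det_fromBlocks_zero₁₂ _ _ _,
          Matrix.det_fromBlocks_zero₂₁] at hbu'
        exact isUnit_of_mul_isUnit_left (isUnit_of_mul_isUnit_left hbu')
      b1a := fun i j => hba' (Sum.inl (Sum.inl i)) (Sum.inl (Sum.inl j))
      leg := fun j => by
        obtain ⟨A, R, hR⟩ := hp j
        obtain ⟨B, q, hB, hq, hl⟩ := hR.leg
        exact ⟨B, q, hB, hq, hl⟩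
      det := hHd }
  have main : ∀ W ∈ motivicLie A u q {s | IsCentral A u q s.1 ∧
        IsAlgebraic ℚ (pairing s.1 (logarithm u e q f L) - (s.2 : ℂ) * (2 * Real.pi * Complex.I))},
      ∀ x ∈ S, NormedSpace.exp W * x ∈ S := by
    rintro _ ⟨X, Z, μ, Y, w, hX, hYZ, hw, rfl⟩ x hx
    have hX' : X - (μ / 2) • 1 ∈ Submodule.span ℂ {Y | ∃ P ∈ A.NA, Y = Pool.Agent.X306.AV.mt P} := by
      refine Pool.Agent.X306.AV.span_of_transpose ?_
      rw [Matrix.transpose_sub, Matrix.transpose_smul, Matrix.transpose_one]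
      exact hX
    have h1 := Pool.Agent.H936.W.om_exp hPD hS' hG' hbu' hba' hc' hF' hM.path hM.extension hE hn' hHt (by omega) hp
      (hV K hK hKD) (X := X) (μ := μ) hX' ((rel_iff A u q Y Z).1 hYZ) (w := w) (fun χ h1 n h2 => by
        refine hw (χ, n) ⟨fun c hc' => h1 c (by rwa [commutators_eq] at hc'), ?_⟩
        rw [logarithm_eq A]
        exact h2) hx
    have hblock : ∀ X z μ Y w κ, block (g := g') (R := R) (J := J) X z μ Y w κ =
      Pool.Agent.X306.AV.sm (X, z, μ, Y, w) κ := fun X z μ Y w κ => rfl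
    rw [hblock, columns_eq]
    exact h1
  refine ⟨main, ?_⟩
  rintro halg _ ⟨X, Z, μ, Y, w, hX, hYZ, hw, rfl⟩ x hx
  refine main _ ⟨X, Z, μ, Y, w, hX, hYZ, fun s hs => hw s ⟨hs.1, ?_⟩, rfl⟩ x hx
  have h1 : Complex.exp (pairing s.1 (logarithm u e q f L) - (s.2 : ℂ) * (2 * Real.pi * Complex.I)) =
      Complex.exp (pairing s.1 (logarithm u e q f L)) := by
    rw [Complex.exp_sub, Complex.exp_int_mul_two_pi_mul_I, div_one]
  by_contra hne
  refine Pool.Agent.H340R2.LW.transcendental_cexp _ hs.2 (sub_ne_zero.2 hne) ?_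
  rw [h1]
  exact halg s.1 hs.1

/-- **The theorem.** -/
theorem result (g : ℕ) (hg : 2 ≤ g) (T : Polynomial ℤ) (A : Fin (2 * g * (2 * g)) → Fin (2 * g * (2 * g)) → Polynomial ℤ)
    (Z : Matrix (Fin (2 * g)) (Fin (2 * g)) (PowerSeries ℚ)) (hG : GFamily T A (entries Z)) :
    ∃ G : ℕ, 1 ≤ G ∧ ∀ (C : Matrix (Fin (2 * g)) (Fin (2 * g)) ℂ) (H M : Matrix (Fin (2 * g)) (Fin (2 * g)) ℚ),
      IsUnit H → Hᵀ = -H → Polarised C H M → BigMonodromy Z C H → ∀ N D : ℕ, ∃ E : ℕ,
      -- 1: arbitrary centre, one exceptional parameter in each window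
      (∀ a b c : ℕ, (b - a + 2) ^ E ≤ a → ∃ t₀ : ℕ, ∀ t : Fin N → ℕ, Function.Injective t →
        (∀ j, a ≤ t j ∧ t j ≤ b ∧ t j ≡ c [MOD G] ∧ t j ≠ t₀) → (∀ j, ∃ A : AbVar g, Presents A H (period C M Z (t j))) →
        Good D fun j => period C M Z (t j)) ∧
      -- 2: special centre, no exceptional parameter
      (SpecialCentre C H M → ∀ t : Fin N → ℕ, InWindow G E t → (∀ j, ∃ A : AbVar g, Presents A H (period C M Z (t j))) →
        Good D fun j => period C M Z (t j)) := by
  obtain ⟨q', C', hG'⟩ := Pool.Agent.Y120.GH.gsys_of hG.ode hG.size hG.den (gal_eq hG)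
  obtain ⟨G₁, hG₁, hh₁⟩ := Pool.Agent.H936.W.finV_exc hg hG.T_ne hG.ode hG' (qu_eq hG.regular)
  obtain ⟨G₂, hG₂, hh₂⟩ := Pool.Agent.H936.W.finV_good hg hG.T_ne hG.ode hG' (qu_eq hG.regular)
  refine ⟨G₁ * G₂, Nat.mul_pos hG₁ hG₂, fun C H M hHu hHt hpol hmon N D => ?_⟩
  obtain ⟨hCu, hM, Q, hQ, hCQ, hMQ⟩ := hpol
  have hC : IsUnit C.det := (Matrix.isUnit_iff_isUnit_det _).1 hCu
  have hHd : IsUnit H.det := (Matrix.isUnit_iff_isUnit_det _).1 hHu
  have hcen : Pool.Agent.H936.G.Cen C H M Q (2 * Real.pi * Complex.I) :=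
    { skew := hHt
      hd := hHd
      cd := hC
      leg := by
        rw [← map_eq]
        exact hCQ
      ne := Pool.Agent.Y102.AbVar.tau_ne
      alg := hQ
      nil := hM
      inf := by
        rw [← map_eq]
        exact hMQ }
  have hMc : (Pool.Agent.Y119.HY.cm M) ^ (2 * g) = 0 := by
    rw [← Pool.Agent.Y119.HY.cm_pow, hM]
    exact map_zero _
  have hPP : ∀ t : ℕ, period C M Z t = Pool.Agent.H936.G.PP C M Z t := by
    intro t
    unfold period Pool.Agent.H936.G.PP
    rw [Pool.Agent.Y119.HY.E_exp hMc, map_eq]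
    rfl
  have hI' : ∀ X ∈ Pool.Agent.Helper880_R3.lieB Q, Pool.Agent.Helper880_R3.Inf Z X := by
    rintro X ⟨-, hX⟩
    have hCC : C * C⁻¹ = 1 := Matrix.mul_nonsing_inv _ hC
    have hCC' : C⁻¹ * C = 1 := Matrix.nonsing_inv_mul _ hC
    have h1 : X = C⁻¹ * (C * X * C⁻¹) * C := by
      calc X = (C⁻¹ * C) * X * (C⁻¹ * C) := by rw [hCC', Matrix.one_mul, Matrix.mul_one]
        _ = _ := by simp only [Matrix.mul_assoc]
    rw [h1]
    refine sym_inf (hmon _ ?_)
    have h2 : (2 * Real.pi * Complex.I : ℂ) • (C * X * C⁻¹ * toC H + toC H * (C * X * C⁻¹)ᵀ) =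
        C * (X * Q + Q * Xᵀ) * Cᵀ := by
      rw [smul_add, ← Matrix.mul_smul, ← Matrix.smul_mul, ← hCQ, Matrix.mul_add, Matrix.add_mul, Matrix.transpose_mul,
        Matrix.transpose_mul]
      congr 1
      · calc C * X * C⁻¹ * (C * Q * Cᵀ) = C * X * (C⁻¹ * C) * Q * Cᵀ := by simp only [Matrix.mul_assoc]
          _ = _ := by
            rw [hCC', Matrix.mul_one]
            simp only [Matrix.mul_assoc]
      · have hCt' : Cᵀ * (C⁻¹)ᵀ = 1 := by rw [← Matrix.transpose_mul, hCC', Matrix.transpose_one]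
        calc C * Q * Cᵀ * ((C⁻¹)ᵀ * (Xᵀ * Cᵀ)) = C * Q * (Cᵀ * (C⁻¹)ᵀ) * Xᵀ * Cᵀ := by simp only [Matrix.mul_assoc]
          _ = _ := by
            rw [hCt', Matrix.mul_one]
            simp only [Matrix.mul_assoc]
    rw [hX, Matrix.mul_zero, Matrix.zero_mul] at h2
    exact (smul_eq_zero.1 h2).resolve_left Pool.Agent.Y102.AbVar.tau_ne
  have hC₀ : ((2 * Real.pi * Complex.I : ℂ) • (1 : Matrix (Fin 1) (Fin 1) ℂ)).det ≠ 0 := by
    rw [Matrix.det_smul, Matrix.det_one, mul_one]
    exact pow_ne_zero _ Pool.Agent.Y102.AbVar.tau_ne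
  have hdet : ∀ {t : ℕ}, (∃ A : AbVar g, Presents A H (period C M Z t)) → (Pool.Agent.Y118.HV.Hv Z t).det ≠ 0 := by
    rintro t ⟨A, R, T, q, h1, h2, -⟩
    have h3 := (Matrix.isUnit_iff_isUnit_det _).1 h2
    unfold period at h3
    rw [Matrix.det_mul, Matrix.det_mul] at h3
    exact (isUnit_of_mul_isUnit_right (isUnit_of_mul_isUnit_right h3)).ne_zero
  obtain ⟨E₁, hE₁⟩ := hh₁ C Q H M _ hcen hI' N D 1 _ hC₀ fun σ => few_std hg hcen le_rfl (fun δ => hcen.gsC δ) σ
  have hgood : SpecialCentre C H M → ∃ E₂ : ℕ, ∀ t : Fin N → ℕ, InWindow G₂ E₂ t →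
      (∀ j, ∃ A : AbVar g, Presents A H (period C M Z (t j))) → Good D fun j => period C M Z (t j) := by
    intro hsc
    rcases Nat.eq_zero_or_pos N with rfl | hN
    · exact ⟨0, fun t _ hpres => good_of hg hHu hHt hpres fun K hK hKD V hV i => i.elim0⟩
    have hdata : ∃ 𝔉 : Submodule (Pool.Agent.Y118.UL.U ℂ) (Matrix (Fin (2 * g)) (Fin (2 * g)) (Pool.Agent.Y118.UL.U ℂ)),
        𝔉 ≤ Pool.Agent.Helper880_LF.spS (Pool.Agent.H936.SL.cu (Pool.Agent.Y119.HY.cm H⁻¹)) ∧
        Module.finrank (Pool.Agent.Y118.UL.U ℂ) 𝔉 + (2 * g - 1) ≤ Module.finrank (Pool.Agent.Y118.UL.U ℂ)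
          (Pool.Agent.Helper880_LF.spS (Pool.Agent.H936.SL.cu (Pool.Agent.Y119.HY.cm H⁻¹))) ∧
        (∀ δ : Pool.Agent.H936.G.DD, ∃ c : Pool.Agent.Y118.UL.U ℂ, Pool.Agent.H936.G.ld (fun _ => C) δ +
          c • (1 : Matrix (Fin (2 * g)) (Fin (2 * g)) (Pool.Agent.Y118.UL.U ℂ)) ∈ 𝔉) ∧
        (∀ (σ : ℕ → ℂ) (δ : Pool.Agent.H936.G.DD), ∃ c : Pool.Agent.Y118.UL.U ℂ,
          Pool.Agent.H936.G.ld (Pool.Agent.H936.G.csq C M σ) δ +
          c • (1 : Matrix (Fin (2 * g)) (Fin (2 * g)) (Pool.Agent.Y118.UL.U ℂ)) ∈ 𝔉) ∧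
        (∀ 𝔩 : Submodule (Pool.Agent.Y118.UL.U ℂ) (Matrix (Fin (2 * g)) (Fin (2 * g)) (Pool.Agent.Y118.UL.U ℂ)),
          𝔩 ≤ Pool.Agent.Helper880_LF.spS (Pool.Agent.H936.SL.cu (Pool.Agent.Y119.HY.cm H⁻¹)) →
          Pool.Agent.H936.SL.TN 𝔩 → (∀ X ∈ Pool.Agent.Helper880_LF.spS
            (Pool.Agent.H936.SL.cu (Pool.Agent.Y119.HY.cm H⁻¹)), ∃ Z B, X = Z + B ∧
            Z ∈ Pool.Agent.Helper880_LF.spS (Pool.Agent.H936.SL.cu (Pool.Agent.Y119.HY.cm H⁻¹)) ∧ B ∈ 𝔉 ∧
            ∀ Y ∈ 𝔩, Z * Y - Y * Z ∈ 𝔩) →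
          𝔩 = ⊥ ∨ 𝔩 = Pool.Agent.Helper880_LF.spS (Pool.Agent.H936.SL.cu (Pool.Agent.Y119.HY.cm H⁻¹))) := by
      rcases hsc with ⟨hM0, A₀, hA₀, hspec⟩ | htor
      · subst hM0
        obtain ⟨R₀, hR₀⟩ := pres_of hA₀
        obtain ⟨K₀, S₀, hspc⟩ := spc_of (by omega) hR₀ hHt hHd hC hspec
        obtain ⟨𝔉, f1, f2, f3, f4⟩ := hspc.data hg hcen
        refine ⟨𝔉, f1, f4, f2, fun σ δ => ?_, f3⟩
        rw [Pool.Agent.H936.G.csq_zero (by omega)]
        exact f2 δ
      · have hcus : Pool.Agent.H936.G.Cus C H M := by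
          obtain ⟨v, w, κ, h1, h2, h3, h4, h5, h6⟩ := htor
          refine ⟨v, w, κ, h1, h2, h3, fun i => ?_, h5, h6⟩
          rw [← map_eq]
          exact h4 i
        obtain ⟨𝔉, f1, f2, f3, f4, f5⟩ := Pool.Agent.H936.G.cus_data (by omega) hcen hcus
        have f2' : Module.finrank (Pool.Agent.Y118.UL.U ℂ) 𝔉 + 2 * g ≤ Module.finrank (Pool.Agent.Y118.UL.U ℂ)
          (Pool.Agent.Helper880_LF.spS (Pool.Agent.H936.SL.cu (Pool.Agent.Y119.HY.cm H⁻¹))) + 1 := f2
        refine ⟨𝔉, f1, ?_, f3, f4, f5⟩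
        generalize Module.finrank (Pool.Agent.Y118.UL.U ℂ) 𝔉 = x at f2' ⊢
        generalize Module.finrank (Pool.Agent.Y118.UL.U ℂ) (Pool.Agent.Helper880_LF.spS
          (Pool.Agent.H936.SL.cu (Pool.Agent.Y119.HY.cm H⁻¹))) = y at f2' ⊢
        omega
    obtain ⟨𝔉, f1, f2, f3, f4, f5⟩ := hdata
    obtain ⟨E₂, hE₂⟩ := hh₂ C Q H M _ hcen hI' N D 1 _ hN hC₀ (fun σ => few_std hg hcen f2 f3 σ)
      fun σ => ⟨𝔉, f1, fun δ => f4 σ δ, f5⟩
    refine ⟨E₂, fun t ht hpres => good_of hg hHu hHt hpres fun K hK hKD V hV => ?_⟩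
    refine hE₂ t ht.1 ht.2.1 ht.2.2 (fun j => hdet (hpres j)) K hK hKD V ?_
    simp only [← hPP]
    exact hV
  have hpow : ∀ {x E E' : ℕ}, E ≤ E' → (x + 2) ^ E ≤ (x + 2) ^ E' := fun h => Nat.pow_le_pow_right (by omega) h
  have h1 : ∀ E, E₁ ≤ E → ∀ a b c : ℕ, (b - a + 2) ^ E ≤ a → ∃ t₀ : ℕ, ∀ t : Fin N → ℕ, Function.Injective t →
        (∀ j, a ≤ t j ∧ t j ≤ b ∧ t j ≡ c [MOD (G₁ * G₂)] ∧ t j ≠ t₀) →
        (∀ j, ∃ A : AbVar g, Presents A H (period C M Z (t j))) → Good D fun j => period C M Z (t j) := by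
    intro E hE a b c hab
    obtain ⟨t₀, ht₀⟩ := hE₁ a b c ((hpow hE).trans hab)
    refine ⟨t₀, fun t hinj hrange hpres => good_of hg hHu hHt hpres fun K hK hKD V hV => ?_⟩
    refine ht₀ t hinj (fun j => ?_) (fun j => hdet (hpres j)) K hK hKD V ?_
    · obtain ⟨r1, r2, r3, r4⟩ := hrange j
      exact ⟨r1, r2, r3.of_mul_right _, r4⟩
    · simp only [← hPP]
      exact hV
  by_cases hsc : SpecialCentre C H M
  · obtain ⟨E₂, hE₂⟩ := hgood hsc
    refine ⟨E₁ + E₂, h1 _ (by omega), fun _ t ht hpres => hE₂ t ⟨ht.1, fun i j => (ht.2.1 i j).of_mul_left _, fun i j =>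
      (hpow (by omega)).trans (ht.2.2 i j)⟩ hpres⟩
  · exact ⟨E₁, h1 _ le_rfl, fun h => absurd h hsc⟩

end Pool.Agent.Results.MP_12eca1_ag.OneMotivesOverFibres
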