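import Pool.Agent.H367.OS.GNori

/-!
# The period conjecture over algebraic fields and one sequence of cubics over the integers

A relation `r` of size `m` is one of the equations `x_i x_j = x_l`, `x_i + x_j = x_l`, `x_i = 1` with
`i, j, l < m`; the relations are numbered, the number of `r` is `ν(r)` (`relNum`). Let `G_m` be the
following polynomial with integral coefficients (`univG ℤ m`). There are variables `x_i` and `z_ij` for
`i, j < m`, a variable `c_r` for every relation `r`, and variables `y_{r,l}` for all relations `r` and
`l < (m + 1) 2 ^ ν(r)`. The equations (`eqnG`) are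

  `z_ij - x_i x_j`,  `c_r ^ 2 - c_r`,  `c_r ρ_r`,  `(1 - c_r) y_{r,l}`,

where `ρ_r` is the linear polynomial `z_ij - x_l`, `x_i + x_j - x_l` or `x_i - 1` of the relation.
`G_m` is the sum of the equations multiplied by further variables `t_e`, one for each equation. It has
degree three. Let `C_m` be the affine cubic hypersurface `G_m = 1` (`cubG R m` over the ring `R`); it is
smooth over the integers.

Let `M` be the category of Nori motives over `ℚ̄`, with the Tate twists `N ↦ N(a)`. For a separated
scheme `X` of finite type over `ℚ` let `D.H j X = H^j_c(X)` be the Nori motive of the cohomology with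
compact supports of `X_ℚ̄`. `S N N'` says that `N` is an object of `⟨N'⟩`, the smallest full abelian
rigid tensor subcategory which contains `N'` and is closed under subquotients. Let `M(C_m) = ⨁_j
H^j_c(C_m)` (`motC D m`; `0 ≤ j ≤ 2 n`, where `n` is the number of variables of `G_m`).

For a Nori motive `N` over `ℚ̄` let `per N` be the set of the periods of `N`, `dimG N` the dimension
of the motivic Galois group, and `trd P N` the transcendence degree over `ℚ` of the field generated by
`per N`. If `N` is in `⟨N'⟩`, the periods of `N'` are the coordinates of a point of the fibre of the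
torsor of `N'` over a point of the torsor of `N`, which is a torsor under the kernel of `G(N') →
G(N)`, and so `trd N' + dimG N ≤ trd N + dimG N'` (`PeriodNumbers.fibre`).

`Q1 k ι` is the inequality of question Q1 for the field `k`, the embedding `ι : k → ℂ` and all Nori
`(k, ι)`-motives. We consider the fields which are algebraic over `ℚ`; neither side of the inequality
changes if one passes from `k` to `ℚ̄` (hypothesis `describes`).

**Theorem.** (1) The inequality of question Q1 is true for all fields `k` which are algebraic over
`ℚ`, all embeddings and all Nori motives over `k`, if and only if it is true for the motives `M(C_m)`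
of the hypersurfaces `C_m`, for infinitely many `m`.

(2) For every Nori motive `N` over `ℚ̄` there is an `m₀` such that for all `m ≥ m₀` the motive `N` is in
`⟨M(C_m)⟩`, and the inequality for `M(C_m)` implies the inequality for `N`.

(3) For every affine scheme `Spec B` of finite type over `ℚ` and all large `m` there is an `N` such
that `H^{j+2e+1}_c(C_m) ≅ H^j_c(Spec B)(-e)` for `0 ≤ j ≤ 2 m`, with `e = (m + 1) N + E_m - 1`, where
`E_m` is the number of the equations.

(4) `G_m` has integral coefficients and degree at most three, and `C_m` is smooth over all rings.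

The hypotheses on the category of motives are the following ones.

* `IsCoh`: exact sequences of the cohomology with compact supports, affine bundles, the cohomology of
  affine spaces, and `H^j_c(X)` is zero for `j < 0` and `j > 2 dim X`.
* `IsTannakian`: the category `⟨N'⟩` contains `N'` and `𝟙`, it is closed under direct sums, direct factors
  and tensor products with Tate objects in it, and contains the duals of its Tate objects; `⟨N⟩ ⊆ ⟨N'⟩` if
  `N` is in `⟨N'⟩`.
* `GeneratedByAffine`: every `N` is in `⟨𝟙(1) ⊕ ⨁_j H^j_c(Spec B)⟩` for an affine scheme `Spec B` of finite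
  type over `ℚ`. In fact every Nori motive over `ℚ̄` is a subquotient of some `H^j_c(V)(a)`: By the basic
  lemma it is a subquotient of a sum of twists of `H^i(W ∖ D, E ∖ D)`, where `W` is smooth and projective
  and `D ∪ E` is a divisor with normal crossings. If `D` is smooth let `V` be the blowing-up of `W × ℙ^1`
  in `D × 0`, without the strict transforms of `W × 0` and `W × 1` and without the inverse image of `E`;
  then `H^{i+1}_c(V)` is the direct sum of `H^i(W ∖ D, E ∖ D)` and `H^{i-1}_c(W ∖ E)(-1)`. In general
  take the fibre product over `W` of such schemes for the components of `D`. The scheme `V` is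
  quasi-projective over a number field, it is an open and closed part of `V'_ℚ̄`, where `V'` is `V` regarded
  as a scheme over `ℚ`, and by Jouanolou's device one can take an affine scheme, up to a Tate twist.

Idea of the proof. The projection of `C_m` to the affine space with the coordinates `x, z, c, y` is an
affine bundle over the complement of the zero set `W_m` of the equations. The scheme `W_m` is the
disjoint union, over all sets `s` of relations (`c_r = 1` for `r ∈ s` and `c_r = 0` for the others), of
the products `X_s × 𝔸 ^ ((m + 1) N(s))`, where `X_s` is the affine scheme defined by the relations in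
`s` and `N(s) = ∑_{r ∈ s} 2 ^ ν(r)`. The numbers `N(s)` are different, and the dimension of `X_s` is at
most `m`. So the invariant of `W_m` with the index `q + (m + 1) N(s)`, `0 ≤ q ≤ m`, is the invariant of
`X_s` with the index `q`; the other components do not contribute. Every affine scheme of finite type
over a prime field is an `X_s`, for all large `m`.

The universal system of relations is the one of helper854 (`Pool.Agent.H854.SQ`).
-/

set_option autoImplicit false

open CategoryTheory CategoryTheory.Limits AlgebraicGeometry Pool.Agent.Y116.UV Pool.Agent.Z125.UN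
  Pool.Agent.Q193.LT Pool.Agent.H854.SQ Pool.Agent.H367.OS

universe v u



namespace Pool.Agent.Results.MP_12eca1_ag.OneSequenceOverTheIntegers

/-- The periods and the dimensions of the motivic Galois groups. -/
structure PeriodNumbers {M : Type u} (S : M → M → Prop) where
  /-- the set of the periods -/
  per : M → Set ℂ
  /-- the dimension of the motivic Galois group -/
  dimG : M → ℕ
  fibre : ∀ {N N' : M}, S N N' →
    Algebra.trdeg ℚ (IntermediateField.adjoin ℚ (per N')) + (dimG N : Cardinal) ≤
      Algebra.trdeg ℚ (IntermediateField.adjoin ℚ (per N)) + (dimG N' : Cardinal)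

/-- The transcendence degree of the field generated by the periods of `N`. -/
noncomputable def trd {M : Type u} {S : M → M → Prop} (P : PeriodNumbers S) (N : M) : Cardinal.{0} :=
  Algebra.trdeg ℚ (IntermediateField.adjoin ℚ (P.per N))

/-- **The period conjecture over algebraic fields and one sequence of cubic hypersurfaces over the
integers.** See the explanations above. -/
theorem result {M : Type u} [Category.{v} M] [Abelian M] {D : CompactData ℚ M} (coh : IsCoh D)
    {S : M → M → Prop} (tannakian : IsTannakian D S) (generated : GeneratedByAffine D S)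
    (P : PeriodNumbers S) {Q1 : ∀ (k : Type) [Field k], (k →+* ℂ) → Prop}
    (describes : (∀ (k : Type) [Field k] [Algebra ℚ k] [Algebra.IsAlgebraic ℚ k] (ι : k →+* ℂ),
      Q1 k ι) ↔ ∀ N : M, (P.dimG N : Cardinal) ≤ trd P N) :
    List.TFAE [
      ∀ (k : Type) [Field k] [Algebra ℚ k] [Algebra.IsAlgebraic ℚ k] (ι : k →+* ℂ), Q1 k ι,
      ∀ m, (P.dimG (motC D m) : Cardinal) ≤ trd P (motC D m),
      ∃ᶠ m in Filter.atTop, (P.dimG (motC D m) : Cardinal) ≤ trd P (motC D m)] ∧
    (∀ N, ∃ m₀ : ℕ, ∀ m, m₀ ≤ m → S N (motC D m) ∧
      ((P.dimG (motC D m) : Cardinal) ≤ trd P (motC D m) → (P.dimG N : Cardinal) ≤ trd P N)) ∧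
    (∀ (B : Type) [CommRing B] [Algebra ℚ B] [Algebra.FiniteType ℚ B], ∃ m₀ : ℕ, ∀ m, m₀ ≤ m →
      ∃ N : ℕ, ∀ j : ℤ, 0 ≤ j → j ≤ 2 * m → Nonempty (D.H (j + 2 * esh m N + 1) (cubG ℚ m) ≅
        (D.tw (-esh m N)).obj (D.H j (aff ℚ B)))) ∧
    ∀ m : ℕ, (univG ℤ m).totalDegree ≤ 3 ∧
      ∀ (R : Type) [CommRing R], MvPolynomial.map (Int.castRingHom R) (univG ℤ m) = univG R m ∧
        Smooth (cubG R m).hom := by
  have hP : Inherits S (fun N => (P.dimG N : Cardinal) ≤ trd P N) := by
    intro N N' h h'
    have h1 := P.fibre h
    have h2 : (P.dimG N : Cardinal) + (P.dimG N' : Cardinal) ≤ trd P N + (P.dimG N' : Cardinal) := by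
      refine le_trans ?_ h1
      rw [add_comm (P.dimG N : Cardinal)]
      gcongr
      exact h'
    exact (Cardinal.add_le_add_iff_of_lt_aleph0 (Cardinal.natCast_lt_aleph0)).mp h2
  have h0 := tannakian.tfae isPrimeField_rat coh generated hP
  refine ⟨?_, fun N => ?_, fun B _ _ _ => by
    obtain ⟨m₀, hm⟩ := coh_affine.{v, u} isPrimeField_rat B
    refine ⟨m₀, fun m hm1 => ?_⟩
    obtain ⟨N, hN⟩ := hm m hm1
    exact ⟨N, fun j h0 h1 => hN M D coh j h0 h1⟩,
    cubG_facts⟩
  · tfae_have 1 ↔ 3 := describes.trans (h0.out 0 2)
    tfae_have 2 ↔ 3 := h0.out 1 2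
    tfae_finish
  · obtain ⟨m₀, hm⟩ := tannakian.exhaust isPrimeField_rat coh generated N
    exact ⟨m₀, fun m hm1 => ⟨hm m hm1, hP _ _ (hm m hm1)⟩⟩

end Pool.Agent.Results.MP_12eca1_ag.OneSequenceOverTheIntegers
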